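import Pool.Agent.Helper82.TP.Copy
import Pool.Agent.Helper31.EC.Uns
import Pool.Agent.Helper25.EC.Rst

/-! Small functions, division by a function which is real beyond a level, products with small functions. -/

set_option autoImplicit false

namespace Pool.Agent.Helper82.TP

open Finset Filter Topology Pool.Agent.Helper69.RK Pool.Agent.Helper31.EC

noncomputable section

open Sp QS

variable {S : Sp}

theorem mk_mem_Id' {f : TR S} {r : ℝ} : mk f ∈ Id S r ↔ TR.Ag (min r 1) f 0 := by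
  rw [← mk_mem_Id (min_le_right r 1)]
  show TR.Ag (min r 1) (rep (mk f)) 0 ↔ TR.Ag (min (min r 1) 1) (rep (mk f)) 0
  rw [min_eq_left (min_le_right r 1)]

theorem rest_mem_Id (E : ∀ k, (S.F k).Ω → Prop) (hE : 0 < ul (S.pr E)) {f : QS S} {r : ℝ} (hf : f ∈ Id S r) :
    QS.rest E hE f ∈ Id (S.rest E) r := by
  obtain ⟨f, rfl⟩ := mk_surj f
  rw [mk_mem_Id'] at hf
  rw [QS.rest_mk, mk_mem_Id']
  have := TR.Ag.rest E hE hf
  rwa [map_zero] at this

theorem Pj_mem_Id {T S : Sp} (p : Pj T S) {f : QS S} {r : ℝ} (hf : f ∈ Id S r) : p.qs f ∈ Id T r := by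
  obtain ⟨f, rfl⟩ := mk_surj f
  rw [mk_mem_Id'] at hf
  rw [p.qs_mk, mk_mem_Id']
  have := p.ag hf
  rwa [map_zero] at this

theorem H_dg_of_mem {f : QS S} {s : ℝ} (hs : s ≤ 1) (hf : f ∈ Id S s) : H (dg f 1) ≤ 1 - s := by
  have h1 := h_dg_dg f hs
  rw [dg_of_mem_Id hf le_rfl hs, h_bot] at h1
  exact h1

/-- a function which is not small is large on an event of positive probability: division there -/
theorem exists_event {f : QS S} {r : ℝ} (hr : r ≤ 1) (hf : f ∉ Id S r) :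
    ∃ (ε : ℝ) (_ : 0 < ε) (E : ∀ k, (S.F k).Ω → Prop) (hE : 0 < ul (S.pr E)), ∀ (g : QS S) (b : ℝ), b ≤ 1 →
      g * f ∈ Id S b → QS.rest E hE g ∈ Id (S.rest E) (b - r + ε) := by
  obtain ⟨f, rfl⟩ := mk_surj f
  rw [mk_mem_Id hr] at hf
  have h1 : ∃ δ : ℝ, 0 < δ ∧ ¬ Typ (fun k ω => |TR.ev f k ω - TR.ev (0 : TR S) k ω| ≤ S.dl (r - δ) k) := by
    by_contra hc
    push Not at hc
    exact hf (TR.ag_of_levels hc)
  obtain ⟨δ, hδ, hT⟩ := h1
  have hE : 0 < ul (S.pr fun k ω => ¬ |TR.ev f k ω - TR.ev (0 : TR S) k ω| ≤ S.dl (r - δ) k) :=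
    (typ_or _).resolve_left hT
  refine ⟨δ, hδ, _, hE, fun g b hb hg => ?_⟩
  obtain ⟨g, rfl⟩ := mk_surj g
  rw [← map_mul, mk_mem_Id hb] at hg
  have h2 := TR.Ag.rest _ hE hg
  rw [QS.rest_mk, mk_mem_Id']
  obtain ⟨A, K, hA, hK, hh⟩ := h2
  refine TR.Ag.anti (r := b - r + δ) ⟨A, K, hA, hK, ?_⟩ (min_le_left _ _)
  have h0 := ul_tendsto (UB_pr (S := S) fun k ω => ¬ |TR.ev f k ω - TR.ev (0 : TR S) k ω| ≤ S.dl (r - δ) k)
  filter_upwards [hh, h0.eventually (lt_mem_nhds (half_lt_self hE))] with k hk hk2 ω a b'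
  have h3 := hk ω a b'
  have hpos : (S.F k).pb (fun ω => ¬ |TR.ev f k ω - TR.ev (0 : TR S) k ω| ≤ S.dl (r - δ) k) ≠ 0 :=
    (lt_trans (half_pos hE) hk2).ne'
  have h4 := ((S.F k).rest_supp _ ω a).2 hpos
  have h5 : S.dl (r - δ) k < |TR.ev f k ω - TR.ev (0 : TR S) k ω| := not_le.mp h4
  rw [TR.ev_zero, sub_zero] at h5
  have h3' : |TR.ev g k ω * TR.ev f k ω - 0| ≤ K k * S.dl b k := h3
  rw [sub_zero, abs_mul] at h3'
  show |TR.ev g k ω - 0| ≤ K k * S.dl (b - r + δ) k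
  rw [sub_zero]
  have h6 : |TR.ev g k ω| * S.dl (r - δ) k ≤ K k * S.dl b k :=
    (mul_le_mul_of_nonneg_left h5.le (abs_nonneg _)).trans h3'
  have h7 : S.dl b k = S.dl (b - r + δ) k * S.dl (r - δ) k := by
    rw [← S.dl_add]
    congr 1
    ring
  rw [h7, ← mul_assoc] at h6
  exact le_of_mul_le_mul_right h6 (S.dl_pos _ k)

/-- division by a small function which is real beyond its size -/
theorem div_small {f d : QS S} {A : S.L} {s b : ℝ} (hs : s ≤ 1) (hd : d ∈ Id S s)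
    (hr : 1 - s ≤ h (dg d 1) A) (hb : b ≤ 1) (hm : d * f ∈ Id S b) : f ∈ Id S (b - s) := by
  rcases hs.lt_or_eq with hs1 | hs1
  swap
  · rw [hs1]
    exact mem_Id_nonpos (by linarith)
  by_cases hbs : b - s ≤ 1
  swap
  · -- b - s > 1 means s < 0, then use the level 1
    push Not at hbs
    have h0 : s < 0 := by linarith
    have h1 : 1 - s ≤ 1 := hr.trans (h_dg_le_one d A)
    linarith
  by_contra hc
  obtain ⟨ε, hε, E, hE, key⟩ := exists_event hbs hc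
  have h1 := key d b hb hm
  have h2 : QS.rest E hE d ∈ Id (S.rest E) (min (s + ε) 1) := by
    refine Id_anti ?_ h1
    refine (min_le_left _ _).trans (le_of_eq ?_)
    ring
  have h3 := H_dg_of_mem (min_le_right _ _) h2
  have h0 : h (dg d 1) A = 1 - s := le_antisymm ((h_le_H _ _).trans (H_dg_of_mem hs hd)) hr
  have h4 := Sp.h_rest_max E hE h0 (fun E' hE' => by
    refine (h_le_H _ _).trans ?_
    rw [← QS.rest_dg]
    exact H_dg_of_mem hs (rest_mem_Id E' hE' hd))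
  have h5 : h (restL E hE (dg d 1)) (restL E hE A) ≤ H (restL E hE (dg d 1)) := h_le_H _ _
  rw [← QS.rest_dg] at h5
  rw [← QS.rest_dg] at h4
  rcases le_total (s + ε) 1 with h6 | h6
  · rw [min_eq_left h6] at h3
    linarith
  · rw [min_eq_right h6] at h3
    linarith

/-- digits of a product with a small function -/
theorem dg_mul_small (c v : QS S) {a b : ℝ} (hab : a + b ≤ 1) (hb : b ≤ 1) (ha : a ≤ 1) (hv : v ∈ Id S a) :
    dg (c * v) (a + b) ≤ dg c b ⊔ dg v (a + b) := by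
  obtain ⟨c, rfl⟩ := mk_surj c
  obtain ⟨v, rfl⟩ := mk_surj v
  rw [mk_mem_Id ha] at hv
  rw [← map_mul, dg_mk _ hab, dg_mk _ hb, dg_mk _ hab]
  obtain ⟨E, K, hE, hK, hh⟩ := hv
  obtain ⟨C, hC, hC'⟩ := c.2
  apply VV.dg_le_dg2 _ _ _ _ _ _ E hE _ (hC.add hK)
  filter_upwards [hh, hC', hC.1, hK.1] with k hk hc hC0 hK0 ω ω' a' b' e e' _ h1 h2 _
  have h3 : |TR.ev c k ω - TR.ev c k ω'| ≤ S.dl b k := h1 0
  have h4 : |TR.ev v k ω - TR.ev v k ω'| ≤ S.dl (a + b) k := h2 0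
  have h5 := hk ω' b' e'
  rw [TR.ev_zero, sub_zero] at h5
  have h6 := hc ω a'
  show |TR.ev (c * v) k ω - TR.ev (c * v) k ω'| ≤ _
  rw [TR.ev_mul, TR.ev_mul]
  have e1 : TR.ev c k ω * TR.ev v k ω - TR.ev c k ω' * TR.ev v k ω' =
      TR.ev c k ω * (TR.ev v k ω - TR.ev v k ω') + TR.ev v k ω' * (TR.ev c k ω - TR.ev c k ω') := by ring
  rw [e1]
  refine (abs_add_le _ _).trans ?_
  rw [abs_mul, abs_mul, add_mul]
  have h6' : |TR.ev c k ω| ≤ C k := h6
  have h7 := mul_le_mul h6' h4 (abs_nonneg _) hC0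
  have h8 := mul_le_mul h5 h3 (abs_nonneg _) (mul_nonneg hK0 (S.dl_pos a k).le)
  have h9 : K k * S.dl a k * S.dl b k = K k * S.dl (a + b) k := by rw [S.dl_add]; ring
  rw [h9] at h8
  exact add_le_add h7 h8

/-- functions that agree up to level `r`: the digits of one are known if those of the other are -/
theorem dg_le_of_sub {f g : QS S} {r s : ℝ} {A : S.L} (h : f - g ∈ Id S r) (hs : s ≤ r) (hs1 : s ≤ 1)
    (hA : dg g s ≤ A) : dg f s ≤ A := by
  rw [dg_eq_of_sub_mem h hs hs1]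
  exact hA

theorem dg_add_le' (f g : QS S) {r : ℝ} (hr : r ≤ 1) {A : S.L} (hf : dg f r ≤ A) (hg : dg g r ≤ A) :
    dg (f + g) r ≤ A := (dg_add_le f g hr).trans (sup_le hf hg)

theorem dg_sub_le' (f g : QS S) {r : ℝ} (hr : r ≤ 1) {A : S.L} (hf : dg f r ≤ A) (hg : dg g r ≤ A) :
    dg (f - g) r ≤ A := (dg_sub_le f g hr).trans (sup_le hf hg)

theorem dg_mul_le' (f g : QS S) {r : ℝ} (hr : r ≤ 1) {A : S.L} (hf : dg f r ≤ A) (hg : dg g r ≤ A) :
    dg (f * g) r ≤ A := (dg_mul_le f g hr).trans (sup_le hf hg)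

/-- closure of the ideals -/
theorem mem_Id_of_forall {f : QS S} {r : ℝ} (h : ∀ ε : ℝ, 0 < ε → f ∈ Id S (r - ε)) : f ∈ Id S r := by
  obtain ⟨f, rfl⟩ := mk_surj f
  rw [mk_mem_Id']
  apply TR.ag_of_lt
  intro s hs
  have h1 : s < r := lt_of_lt_of_le hs (min_le_left _ _)
  have h2 := h (r - s) (by linarith)
  rw [mk_mem_Id'] at h2
  refine h2.anti ?_
  rw [sub_sub_cancel]
  exact le_min le_rfl (hs.le.trans (min_le_right _ _))

end

end Pool.Agent.Helper82.TP
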