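import Pool.Agent.Helper31.EC.Rl

/-! Copies given a label variable (literally) and digits of functions at several levels. -/

set_option autoImplicit false

namespace Pool.Agent.Helper82.TP

open Finset Filter Topology Pool.Agent.Helper69.RK Pool.Agent.Helper31.EC

noncomputable section

open Sp QS

/-- literal functions of a variable (over the base) -/
def Lit {S : Sp} {β : ℕ → Type} (V : ∀ k, (S.F k).Ω → β k) (f : QS S) : Prop :=
  ∃ g : TR S, mk g = f ∧ ∀ᶠ k in UF, ∀ ω ω', (S.F k).μ ω ≠ 0 → (S.F k).μ ω' ≠ 0 → (S.F k).Z ω ω' →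
    V k ω = V k ω' → TR.ev g k ω = TR.ev g k ω'

namespace Lit

variable {S : Sp} {β : ℕ → Type} {V : ∀ k, (S.F k).Ω → β k}

theorem add {f g : QS S} (hf : Lit V f) (hg : Lit V g) : Lit V (f + g) := by
  obtain ⟨f, rfl, h1⟩ := hf
  obtain ⟨g, rfl, h2⟩ := hg
  refine ⟨f + g, map_add _ _ _, ?_⟩
  filter_upwards [h1, h2] with k a b ω ω' c d e v
  rw [TR.ev_add, TR.ev_add, a ω ω' c d e v, b ω ω' c d e v]

theorem mul {f g : QS S} (hf : Lit V f) (hg : Lit V g) : Lit V (f * g) := by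
  obtain ⟨f, rfl, h1⟩ := hf
  obtain ⟨g, rfl, h2⟩ := hg
  refine ⟨f * g, map_mul _ _ _, ?_⟩
  filter_upwards [h1, h2] with k a b ω ω' c d e v
  rw [TR.ev_mul, TR.ev_mul, a ω ω' c d e v, b ω ω' c d e v]

theorem neg {f : QS S} (hf : Lit V f) : Lit V (-f) := by
  obtain ⟨f, rfl, h1⟩ := hf
  refine ⟨-f, map_neg _ _, ?_⟩
  filter_upwards [h1] with k a ω ω' c d e v
  rw [TR.ev_neg, TR.ev_neg, a ω ω' c d e v]

theorem sub {f g : QS S} (hf : Lit V f) (hg : Lit V g) : Lit V (f - g) := by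
  rw [sub_eq_add_neg]
  exact hf.add hg.neg

theorem of_fun {γ : ℕ → Type} {W : ∀ k, (S.F k).Ω → γ k} {f : QS S} (hf : Lit V f)
    (h : ∀ᶠ k in UF, ∀ ω ω', (S.F k).μ ω ≠ 0 → (S.F k).μ ω' ≠ 0 → (S.F k).Z ω ω' → W k ω = W k ω' → V k ω = V k ω') :
    Lit W f := by
  obtain ⟨f, rfl, h1⟩ := hf
  refine ⟨f, rfl, ?_⟩
  filter_upwards [h1, h] with k a b ω ω' c d e v
  exact a ω ω' c d e (b ω ω' c d e v)

/-- the digits of a literal function are known -/
theorem dg_le {f : QS S} (hf : Lit V f) (hV : Bdd V) {r : ℝ} (hr : r ≤ 1) : dg f r ≤ io V := by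
  obtain ⟨f, rfl, h1⟩ := hf
  rw [dg_mk _ hr, io_eq hV]
  apply TR.dg_le_cl f r hV.toInf (fun _ _ => True) Typ_true (fun _ => 0) (S.Sub_const le_rfl)
  filter_upwards [h1] with k a ω ω' c d _ _ e v
  rw [a ω ω' c d e v, sub_self, abs_zero, zero_mul]

end Lit

section pi

variable {S : Sp}

/-- finite families of variables -/
theorem bdd_pi {γ : Type} : ∀ {N : ℕ} (X : Fin N → ∀ k, (S.F k).Ω → γ) (_ : ∀ i, Bdd (α := fun _ => γ) (X i)),
    Bdd (α := fun _ => Fin N → γ) (fun k ω i => X i k ω) ∧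
      io (α := fun _ => Fin N → γ) (fun k ω i => X i k ω) = Finset.univ.sup fun i => io (α := fun _ => γ) (X i) := by
  intro N
  induction N with
  | zero =>
    intro X _
    have hb : Bdd (S := S) (α := fun _ => Fin 0 → γ) (fun k ω i => X i k ω) := by
      have h1 : Bdd (S := S) (α := fun _ => Unit) (fun _ _ => ()) := by
        unfold Bdd
        have h2 : (fun k => Setoid.ker (fun _ : (S.F k).Ω => ())) = S.tr := by
          funext k
          ext ω ω'
          exact ⟨fun _ => trivial, fun _ => rfl⟩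
        rw [h2]
        exact VB_tr
      exact h1.of_fun (Eventually.of_forall fun k ω ω' _ _ _ _ => by funext i; exact i.elim0)
    refine ⟨hb, ?_⟩
    apply le_antisymm _ (by simp)
    rw [Finset.univ_eq_empty, Finset.sup_empty, io_eq hb, ← cl_bot]
    exact cl_le.mpr (Inf.le_of_le _ _ (Eventually.of_forall fun k => by
      intro ω ω' _
      show (fun i => X i k ω) = fun i => X i k ω'
      funext i
      exact i.elim0))
  | succ N ih =>
    intro X hX
    obtain ⟨h1, h2⟩ := ih (fun i => X i.castSucc) (fun i => hX i.castSucc)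
    have h3 := h1.pair (hX (Fin.last N))
    have h4 := io_pair h1 (hX (Fin.last N))
    have e1 : ∀ᶠ k in UF, ∀ ω ω', (S.F k).μ ω ≠ 0 → (S.F k).μ ω' ≠ 0 → (S.F k).Z ω ω' →
        ((fun i : Fin N => X i.castSucc k ω), X (Fin.last N) k ω) = ((fun i : Fin N => X i.castSucc k ω'), X (Fin.last N) k ω') →
        (fun i => X i k ω) = fun i => X i k ω' := by
      refine Eventually.of_forall fun k ω ω' _ _ _ e => ?_
      rw [Prod.mk.injEq] at e
      funext i
      induction i using Fin.lastCases with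
      | last => exact e.2
      | cast i => exact congrFun e.1 i
    have hb : Bdd (S := S) (α := fun _ => Fin (N + 1) → γ) (fun k ω i => X i k ω) := h3.of_fun e1
    refine ⟨hb, ?_⟩
    rw [sup_univ_succ, ← h2, ← h4]
    apply le_antisymm
    · exact io_le_of_fun h3 e1
    · apply io_le_of_fun hb
      refine Eventually.of_forall fun k ω ω' _ _ _ e => ?_
      rw [Prod.mk.injEq]
      exact ⟨funext fun i => congrFun e i.castSucc, congrFun e (Fin.last N)⟩

end pi

/-- COPIES given a label and digits -/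
theorem exists_lab {W S : Sp} (p : Pj W S) {β : ℕ → Type} (V : ∀ k, (S.F k).Ω → β k) (hV : Bdd V) {N : ℕ}
    (f : Fin N → QS S) (r : Fin N → ℝ) (hr : ∀ i, r i ≤ 1) :
    ∃ (D : Sp) (p1 : Pj D W) (p2 : Pj D S),
      (∀ g, Lit V g → p1.qs (p.qs g) = p2.qs g) ∧
      (∀ i, p1.qs (p.qs (f i)) - p2.qs (f i) ∈ Id D (r i)) ∧
      (∀ k w, (D.F k).μ w ≠ 0 → V k (p.π k (p1.π k w)) = V k (p2.π k w)) ∧
      (∀ x y, I (p1.map x) (p2.map y) (p1.map (p.map (io V ⊔ Finset.univ.sup fun i => dg (f i) (r i)))) = 0) ∧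
      p1.map (p.map (io V)) = p2.map (io V) ∧
      (∀ i, p1.map (p.map (dg (f i) (r i))) = p2.map (dg (f i) (r i))) := by
  classical
  set g : Fin N → TR S := fun i => rep (f i) with hg
  have hgf : ∀ i, mk (g i) = f i := fun i => mk_rep (f i)
  set X : Fin N → ∀ k, (S.F k).Ω → (Fin 1 → ℤ) := fun i => (TR.vec (fun _ : Fin 1 => g i)).cellv (r i) with hX
  have hXb : ∀ i, Bdd (α := fun _ => Fin 1 → ℤ) (X i) := fun i => (TR.vec (fun _ : Fin 1 => g i)).bdd (r i)
  obtain ⟨b1, b2⟩ := bdd_pi X hXb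
  set V' : ∀ k, (S.F k).Ω → β k × (Fin N → Fin 1 → ℤ) := fun k ω => (V k ω, fun i => X i k ω) with hV'
  have b3 : Bdd (S := S) (α := fun k => β k × (Fin N → Fin 1 → ℤ)) V' := hV.pair b1
  have b4 : io V' = io V ⊔ Finset.univ.sup fun i => dg (f i) (r i) := by
    have h1 := io_pair hV b1
    rw [b2] at h1
    have h2 : (fun i => io (α := fun _ => Fin 1 → ℤ) (X i)) = fun i => dg (f i) (r i) := by
      funext i
      rw [← hgf i, dg_mk _ (hr i)]
      rfl
    rw [h2] at h1
    exact h1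
  have key : ∀ k w, ((p.join V').sp.F k).μ w ≠ 0 → V' k (p.π k w.1) = V' k w.2 := fun k w hw => p.join_supp V' k w hw
  have keyV : ∀ k w, ((p.join V').sp.F k).μ w ≠ 0 → V k (p.π k w.1) = V k w.2 := fun k w hw =>
    (Prod.mk.inj (key k w hw)).1
  have hcl : ∀ i, TR.Ag (S := (p.join V').sp) (r i) ((p.join V').p1.tr (p.tr (g i))) ((p.join V').p2.tr (g i)) := by
    intro i
    refine ⟨fun _ _ => True, fun _ => 1, Typ_true, Sp.Sub_const _ zero_le_one, Eventually.of_forall fun k w hw _ => ?_⟩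
    have h1 : X i k (p.π k w.1) = X i k w.2 := congrFun (Prod.mk.inj (key k w hw)).2 i
    have h2 := (TR.vec (fun _ : Fin 1 => g i)).cellv_close (r i) k (p.π k w.1) w.2 h1 0
    have h3 : (p.join V').sp.dl (r i) k = S.dl (r i) k := by
      unfold Sp.dl
      rw [show ((p.join V').sp.F k).n = (W.F k).n from rfl, p.hn k]
    rw [one_mul, h3]
    exact h2
  refine ⟨(p.join V').sp, (p.join V').p1, (p.join V').p2, ?_, ?_, keyV, ?_, ?_, ?_⟩
  · rintro _ ⟨l, rfl, hl⟩
    show mk ((p.join V').p1.tr (p.tr l)) = mk ((p.join V').p2.tr l)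
    rw [mk_eq]
    refine ⟨fun _ _ => True, fun _ => 0, Typ_true, Sp.Sub_const _ le_rfl, ?_⟩
    filter_upwards [hl] with k hk w hw _
    have h1 := (p.join V').supp k w hw
    have h2 : (S.F k).Z (p.π k w.1) w.2 := by
      have h3 := h1.1
      exact Quotient.exact (Prod.mk.inj h3).2
    have h4 := hk (p.π k w.1) w.2 (p.supp k w.1 h1.2.1) h1.2.2 h2 (keyV k w hw)
    show |TR.ev l k (p.π k w.1) - TR.ev l k w.2| ≤ _
    rw [h4, sub_self, abs_zero, zero_mul]
  · intro i
    rw [← hgf i]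
    show mk ((p.join V').p1.tr (p.tr (g i))) - mk ((p.join V').p2.tr (g i)) ∈ _
    rw [← map_sub, mk_mem_Id (hr i)]
    obtain ⟨E, K, hE, hK, hh⟩ := hcl i
    refine ⟨E, K, hE, hK, ?_⟩
    filter_upwards [hh] with k hk ω a b
    rw [TR.ev_sub, TR.ev_zero, sub_zero]
    exact hk ω a b
  · intro x y
    rw [← b4]
    exact p.join_indep V' b3 x y
  · have h1 : p.map (io V) = io (S := W) (fun k ω => V k (p.π k ω)) := p.map_io V
    have h2 : Bdd (S := W) (fun k ω => V k (p.π k ω)) := (p.bdd_iff V).mpr hV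
    have h3 : Bdd (S := (p.join V').sp) (fun k ω => V k ((p.join V').p2.π k ω)) := (Pj.bdd_iff (p.join V').p2 V).mpr hV
    have h4 : Bdd (S := (p.join V').sp) (fun k ω => V k (p.π k ((p.join V').p1.π k ω))) :=
      (Pj.bdd_iff (p.join V').p1 (fun k ω => V k (p.π k ω))).mpr h2
    rw [h1, Pj.map_io (p.join V').p1 (fun k ω => V k (p.π k ω)), Pj.map_io (p.join V').p2 V]
    exact le_antisymm
      (io_le_of_fun h3 (Eventually.of_forall fun k w w' hw hw' _ e => (keyV k w hw).trans (e.trans (keyV k w' hw').symm)))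
      (io_le_of_fun h4 (Eventually.of_forall fun k w w' hw hw' _ e => (keyV k w hw).symm.trans (e.trans (keyV k w' hw'))))
  · intro i
    rw [← hgf i, dg_mk _ (hr i), ← p.tr_dg, ← Pj.tr_dg, ← Pj.tr_dg]
    exact (hcl i).dg_eq le_rfl

end

end Pool.Agent.Helper82.TP
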