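import Pool.Agent.Helper82.TP.GL2
import Pool.Agent.Helper31.EC.Sep

/-! The thin parallelogram in the form of a sheet label: a label blind for the point of the Heisenberg group, known to
the line, with a linear sheet which knows `z` to a positive precision. -/

set_option autoImplicit false

namespace Pool.Agent.Helper82.TP

open Finset Filter Topology Pool.Agent.Helper69.RK Pool.Agent.Helper31.EC Pool.Agent.Helper38.NS

noncomputable section

open Sp QS

variable {S : Sp}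

/-- rounding to precision `r` -/
theorem exists_round (f : QS S) {r : ℝ} (h0 : 0 ≤ r) (hr : r ≤ 1) : ∃ g : QS S, dg g 1 ≤ dg f r ∧ f - g ∈ Id S r := by
  obtain ⟨f, rfl⟩ := mk_surj f
  obtain ⟨K, hK, hb⟩ := f.2
  have hd1 : ∀ k, S.dl r k ≤ 1 := by
    intro k
    have h1 := S.dl_anti h0 k
    have h2 : S.dl 0 k = 1 := by
      unfold Sp.dl
      rw [zero_mul, neg_zero, Real.rpow_zero]
    rwa [h2] at h1
  have key : ∀ k (ω : (S.F k).Ω), |f.1 k ω - S.dl r k * ((TR.vec (fun _ : Fin 1 => f)).cellv r k ω 0 : ℤ)| ≤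
      S.dl r k := by
    intro k ω
    have hp := S.dl_pos r k
    have e1 : (TR.vec (fun _ : Fin 1 => f)).cellv r k ω 0 = ⌊f.1 k ω / S.dl r k⌋ := rfl
    rw [e1]
    have h1 := Int.floor_le (f.1 k ω / S.dl r k)
    have h2 := Int.lt_floor_add_one (f.1 k ω / S.dl r k)
    rw [le_div_iff₀ hp] at h1
    rw [div_lt_iff₀ hp] at h2
    rw [abs_of_nonneg (by linarith)]
    linarith
  have hmem : (fun k (ω : (S.F k).Ω) => S.dl r k * ((TR.vec (fun _ : Fin 1 => f)).cellv r k ω 0 : ℤ)) ∈ TR S := by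
    refine ⟨fun k => K k + 1, hK.add (S.Sub_const zero_le_one), ?_⟩
    filter_upwards [hb] with k hk ω hω
    have h1 := key k ω
    have h2 := hk ω hω
    have h3 := hd1 k
    rw [abs_sub_comm] at h1
    have h4 := abs_sub_abs_le_abs_sub (S.dl r k * ((TR.vec (fun _ : Fin 1 => f)).cellv r k ω 0 : ℤ)) (f.1 k ω)
    linarith
  refine ⟨mk ⟨_, hmem⟩, ?_, ?_⟩
  · have hV := (TR.vec (fun _ : Fin 1 => f)).bdd r
    have h1 : Lit (fun k ω => (TR.vec (fun _ : Fin 1 => f)).cellv r k ω) (mk (⟨_, hmem⟩ : TR S)) := by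
      refine ⟨⟨_, hmem⟩, rfl, Eventually.of_forall fun k ω ω' _ _ _ e => ?_⟩
      show S.dl r k * (((TR.vec (fun _ : Fin 1 => f)).cellv r k ω 0 : ℤ) : ℝ) =
        S.dl r k * (((TR.vec (fun _ : Fin 1 => f)).cellv r k ω' 0 : ℤ) : ℝ)
      have e' : (TR.vec (fun _ : Fin 1 => f)).cellv r k ω = (TR.vec (fun _ : Fin 1 => f)).cellv r k ω' := e
      rw [e']
    have h2 := h1.dg_le hV le_rfl
    rw [dg_mk _ hr]
    exact h2
  · rw [← map_sub, mk_mem_Id hr]
    refine ⟨fun _ _ => True, fun _ => 1, Typ_true, S.Sub_const zero_le_one, Eventually.of_forall fun k ω _ _ => ?_⟩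
    rw [TR.ev_zero, sub_zero, one_mul]
    exact key k ω

variable {H : HD S} {w ρ σ r1 : ℝ} {Sc : Set ℝ} {z0 k0 k1 c : ℝ → QS S}

/-- a fresh point of the line -/
theorem exists_fresh (ht : h (dg H.t 1) H.L = 1) : ∃ (D : Sp) (p1 p2 : Pj D S), p1.qs H.x = p2.qs H.x ∧
    p1.qs H.a = p2.qs H.a ∧ p1.qs H.aR = p2.qs H.aR ∧ p1.qs H.v = p2.qs H.v ∧ p1.qs H.az = p2.qs H.az ∧
    p1.map H.L = p2.map H.L ∧ (∀ X Y : S.L, I (p1.map X) (p2.map Y) (p1.map H.L) = 0) ∧
    (∀ Y : S.L, 1 ≤ h (p2.map (dg H.t 1)) (p1.map Y)) := by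
  obtain ⟨D, p1, p2, c, i, -⟩ := exists_copyS ![H.x, H.a, H.aR, H.v, H.az]
  have hS : vd ![H.x, H.a, H.aR, H.v, H.az] 1 = H.L := by
    apply le_antisymm
    · rw [vd_le]
      intro i
      unfold HD.L
      fin_cases i
      · exact le_sup_left.trans (le_sup_left.trans le_sup_left)
      · exact le_sup_right.trans (le_sup_left.trans le_sup_left)
      · exact le_sup_right.trans le_sup_left
      · exact le_sup_left.trans le_sup_right
      · exact le_sup_right.trans le_sup_right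
    · have g := dg_le_vd ![H.x, H.a, H.aR, H.v, H.az] 1
      exact sup_le (sup_le (sup_le (g 0) (g 1)) (g 2)) (sup_le (g 3) (g 4))
  rw [hS] at i
  have hcom : p1.map H.L = p2.map H.L := by
    rw [← hS, ← p1.qs_vd, ← p2.qs_vd]
    exact vd_congr c 1
  refine ⟨D, p1, p2, c 0, c 1, c 2, c 3, c 4, hcom, i, fun Y => ?_⟩
  have e1 := i Y (dg H.t 1)
  rw [I_zero_iff_h', hcom, p2.h_map, ht] at e1
  rw [← hcom] at e1
  refine e1.ge.trans (h_anti ?_)
  exact le_sup_left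

/-- **THE THIN PARALLELOGRAM, sheet form** -/
theorem HC.sheet_label (hc : HC H w ρ σ r1 Sc z0 k0 k1 c) {η s s2 v : ℝ} (hη : 0 < η) (hmm : Mesh Sc σ η)
    (hS : Scl w σ r1 Sc η s s2 v) :
    ∃ (W : Sp) (p : Pj W S) (V : W.L) (f : MvPolynomial (Fin 3) (QS W)), f ∈ PK V ∧ f.totalDegree ≤ 1 ∧
      h V (p.map H.L) = 0 ∧ I V (p.map H.M) ⊥ = 0 ∧
      p.qs H.z - MvPolynomial.eval (fun i => p.qs (![H.t, H.y, H.R] i)) f ∈ Id W v := by
  obtain ⟨-, h2, -, -, h5⟩ := hc.goal2 hη hmm hS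
  obtain ⟨hs, hs2, -, -, hv0, -, hv2, -, -⟩ := hS
  have hv1 : v ≤ 1 := hv2.trans (hc.s_lt hs2).le
  obtain ⟨D, p1, p2, cx, ca, cR, cv, cz, cL, -, ht⟩ := exists_fresh (H := H) hc.time
  obtain ⟨g1, g2⟩ := h5 D p1 p2 cx ca cR cv cz ht
  obtain ⟨a0, b0, d0⟩ := exists_round (z0 s2) hv0.le hv1
  obtain ⟨a1, b1, d1⟩ := exists_round (k0 s2) hv0.le hv1
  obtain ⟨a2, b2, d2⟩ := exists_round (k1 s2) hv0.le hv1
  obtain ⟨a3, b3, d3⟩ := exists_round (c s2) hv0.le hv1
  have q0 : dg (z0 s2) v ≤ FX z0 k0 k1 c s2 v := le_sup_left.trans (le_sup_left.trans le_sup_left)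
  have q1 : dg (k0 s2) v ≤ FX z0 k0 k1 c s2 v := le_sup_right.trans (le_sup_left.trans le_sup_left)
  have q2 : dg (k1 s2) v ≤ FX z0 k0 k1 c s2 v := le_sup_right.trans le_sup_left
  have q3 : dg (c s2) v ≤ FX z0 k0 k1 c s2 v := le_sup_right
  have kn : ∀ g : QS S, dg g 1 ≤ FX z0 k0 k1 c s2 v → dg (p1.qs g) 1 ≤ p1.map (FX z0 k0 k1 c s2 v) := by
    intro g hg
    rw [p1.qs_dg]
    exact p1.map_mono hg
  refine ⟨D, p2, p1.map (FX z0 k0 k1 c s2 v), MvPolynomial.C (p1.qs a0) + MvPolynomial.C (p1.qs a1) *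
    MvPolynomial.X 0 + MvPolynomial.C (p1.qs a2) * MvPolynomial.X 1 + MvPolynomial.C (p1.qs a3) *
    MvPolynomial.X 2, ?_, ?_, ?_, g1, ?_⟩
  · exact Subring.add_mem _ (Subring.add_mem _ (Subring.add_mem _ (C_mem (kn _ (b0.trans q0)))
      (Subring.mul_mem _ (C_mem (kn _ (b1.trans q1))) (X_mem _ _)))
      (Subring.mul_mem _ (C_mem (kn _ (b2.trans q2))) (X_mem _ _)))
      (Subring.mul_mem _ (C_mem (kn _ (b3.trans q3))) (X_mem _ _))
  · have hm : ∀ (a : QS D) (i : Fin 3), (MvPolynomial.C a * MvPolynomial.X i : MvPolynomial (Fin 3) (QS D)).totalDegree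
        ≤ 1 := by
      intro a i
      refine (MvPolynomial.totalDegree_mul _ _).trans ?_
      rw [MvPolynomial.totalDegree_C, zero_add]
      have h1 : (MvPolynomial.X i : MvPolynomial (Fin 3) (QS D)) = MvPolynomial.monomial (Finsupp.single i 1) 1 := rfl
      rw [h1]
      refine (MvPolynomial.totalDegree_monomial_le _ _).trans ?_
      rw [Finsupp.sum_single_index rfl, id]
    refine (MvPolynomial.totalDegree_add _ _).trans (max_le ((MvPolynomial.totalDegree_add _ _).trans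
      (max_le ((MvPolynomial.totalDegree_add _ _).trans (max_le ?_ (hm _ _))) (hm _ _))) (hm _ _))
    rw [MvPolynomial.totalDegree_C]
    exact Nat.zero_le _
  · rw [← cL]
    exact h_zero (p1.map_mono h2)
  · have e1 : p2.qs H.z - MvPolynomial.eval (fun i => p2.qs (![H.t, H.y, H.R] i)) (MvPolynomial.C (p1.qs a0) +
        MvPolynomial.C (p1.qs a1) * MvPolynomial.X 0 + MvPolynomial.C (p1.qs a2) * MvPolynomial.X 1 +
        MvPolynomial.C (p1.qs a3) * MvPolynomial.X 2) =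
        (p2.qs H.z - (p1.qs (z0 s2) + p1.qs (k0 s2) * p2.qs H.t + p1.qs (k1 s2) * p2.qs H.y +
          p1.qs (c s2) * p2.qs H.R)) + p1.qs (z0 s2 - a0) + p2.qs H.t * p1.qs (k0 s2 - a1) +
          p2.qs H.y * p1.qs (k1 s2 - a2) + p2.qs H.R * p1.qs (c s2 - a3) := by
      simp only [map_add, map_mul, map_sub, MvPolynomial.eval_C, MvPolynomial.eval_X]
      show p2.qs H.z - (p1.qs a0 + p1.qs a1 * p2.qs H.t + p1.qs a2 * p2.qs H.y + p1.qs a3 * p2.qs H.R) = _
      ring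
    rw [e1]
    exact (Id D v).add_mem ((Id D v).add_mem ((Id D v).add_mem ((Id D v).add_mem g2 (Pj_mem_Id p1 d0))
      ((Id D v).mul_mem_left _ (Pj_mem_Id p1 d1))) ((Id D v).mul_mem_left _ (Pj_mem_Id p1 d2)))
      ((Id D v).mul_mem_left _ (Pj_mem_Id p1 d3))

end

end Pool.Agent.Helper82.TP
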