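import Pool.Agent.Helper82.TP.Base

/-! Size of a function which is real beyond a level; digits of quotients. -/

set_option autoImplicit false

namespace Pool.Agent.Helper82.TP

open Finset Filter Topology Pool.Agent.Helper69.RK Pool.Agent.Helper31.EC

noncomputable section

open Sp QS

variable {S : Sp}

/-- a small function which is real beyond its size has exactly this size -/
theorem size_typ {d : TR S} {A : S.L} {s : ℝ} (hs : s < 1) (hd : mk d ∈ Id S s)
    (hr : 1 - s ≤ h (dg (mk d) 1) A) {ε : ℝ} (hε : 0 < ε) : Typ (fun k ω => S.dl (s + ε) k ≤ |TR.ev d k ω|) := by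
  by_contra hc
  have hE : 0 < ul (S.pr fun k ω => ¬ S.dl (s + ε) k ≤ |TR.ev d k ω|) := (typ_or _).resolve_left hc
  set E : ∀ k, (S.F k).Ω → Prop := fun k ω => ¬ S.dl (s + ε) k ≤ |TR.ev d k ω| with hEdef
  have h2 : QS.rest E hE (mk d) ∈ Id (S.rest E) (min (s + ε) 1) := by
    rw [QS.rest_mk, mk_mem_Id (min_le_right _ _)]
    refine ⟨fun _ _ => True, fun _ => 1, Typ_true, (S.rest E).Sub_const zero_le_one, ?_⟩
    have h0 := ul_tendsto (UB_pr (S := S) E)
    filter_upwards [h0.eventually (lt_mem_nhds (half_lt_self hE))] with k hk2 ω a _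
    have hpos : (S.F k).pb (E k) ≠ 0 := (lt_trans (half_pos hE) hk2).ne'
    have h4 := ((S.F k).rest_supp _ ω a).2 hpos
    have h5 : |TR.ev d k ω| < S.dl (s + ε) k := not_le.mp h4
    show |TR.ev d k ω - 0| ≤ 1 * S.dl (min (s + ε) 1) k
    rw [sub_zero, one_mul]
    exact h5.le.trans (S.dl_anti (min_le_left _ _) k)
  have h3 := H_dg_of_mem (min_le_right _ _) h2
  have h0 : h (dg (mk d) 1) A = 1 - s := le_antisymm ((h_le_H _ _).trans (H_dg_of_mem hs.le hd)) hr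
  have h4 := Sp.h_rest_max E hE h0 (fun E' hE' => by
    refine (h_le_H _ _).trans ?_
    rw [← QS.rest_dg]
    exact H_dg_of_mem hs.le (rest_mem_Id E' hE' hd))
  have h5 : h (restL E hE (dg (mk d) 1)) (restL E hE A) ≤ H (restL E hE (dg (mk d) 1)) := h_le_H _ _
  rw [← QS.rest_dg] at h5
  rw [← QS.rest_dg] at h4
  rcases le_total (s + ε) 1 with h6 | h6
  · rw [min_eq_left h6] at h3
    linarith
  · rw [min_eq_right h6] at h3
    linarith

/-- closure: left continuity of the digits -/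
theorem dg_le_of_lt (f : QS S) {r : ℝ} (hr : r ≤ 1) {X : S.L} (h : ∀ ε : ℝ, 0 < ε → dg f (r - ε) ≤ X) : dg f r ≤ X := by
  obtain ⟨f, rfl⟩ := mk_surj f
  rw [dg_mk _ hr]
  apply VV.dg_le_of_lt
  intro δ hδ
  have h1 := h δ hδ
  rw [dg_mk _ (by linarith)] at h1
  exact h1

/-- digits of a quotient by a small function -/
theorem dg_div_small {f d : QS S} {A X : S.L} {s b : ℝ} (hs : s < 1) (hs0 : 0 ≤ s) (hb : b + s ≤ 1) (hd : d ∈ Id S s)
    (hr : 1 - s ≤ h (dg d 1) A) (h1 : dg (d * f) (b + s) ≤ X) (h2 : dg d (b + s) ≤ X) : dg f b ≤ X := by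
  apply dg_le_of_lt f (by linarith)
  intro ε hε
  obtain ⟨f, rfl⟩ := mk_surj f
  obtain ⟨d, rfl⟩ := mk_surj d
  have hT := size_typ hs hd hr hε
  rw [← map_mul, dg_mk _ hb] at h1
  rw [dg_mk _ hb] at h2
  rw [dg_mk _ (by linarith)]
  refine le_trans ?_ (sup_le h1 h2)
  obtain ⟨C, hC, hC'⟩ := f.2
  apply VV.dg_le_dg2 _ _ _ _ _ _ _ hT (fun k => 1 + C k) ((S.Sub_const zero_le_one).add hC)
  filter_upwards [hC', hC.1] with k hc hC0 ω ω' a' b' e e' _ g1 g2 _
  have d1 : |TR.ev (d * f) k ω - TR.ev (d * f) k ω'| ≤ S.dl (b + s) k := g1 0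
  have d2 : |TR.ev d k ω - TR.ev d k ω'| ≤ S.dl (b + s) k := g2 0
  have d3 : |TR.ev f k ω'| ≤ C k := hc ω' b'
  rw [TR.ev_mul, TR.ev_mul] at d1
  show |TR.ev f k ω - TR.ev f k ω'| ≤ (1 + C k) * S.dl (b - ε) k
  set t1 := TR.ev f k ω
  set t2 := TR.ev f k ω'
  set D1 := TR.ev d k ω
  set D2 := TR.ev d k ω'
  have e3 : (t1 - t2) * D1 = (D1 * t1 - D2 * t2) - t2 * (D1 - D2) := by ring
  have e4 : |(t1 - t2) * D1| ≤ (1 + C k) * S.dl (b + s) k := by
    rw [e3]
    have e5 : |t2 * (D1 - D2)| ≤ C k * S.dl (b + s) k := by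
      rw [abs_mul]
      exact mul_le_mul d3 d2 (abs_nonneg _) hC0
    have e6 := abs_sub (D1 * t1 - D2 * t2) (t2 * (D1 - D2))
    linarith
  rw [abs_mul] at e4
  have e9 : |t1 - t2| * S.dl (s + ε) k ≤ (1 + C k) * S.dl (b + s) k :=
    (mul_le_mul_of_nonneg_left e (abs_nonneg _)).trans e4
  have e10 : S.dl (b + s) k = S.dl (b - ε) k * S.dl (s + ε) k := by
    rw [← S.dl_add]; congr 1; ring
  rw [e10, ← mul_assoc] at e9
  exact le_of_mul_le_mul_right e9 (S.dl_pos _ k)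

end

end Pool.Agent.Helper82.TP
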