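import Pool.Agent.Helper82.TP.HC
import Pool.Agent.Helper82.TP.Div

/-! Copies over a line and over a point of the corner; velocities. -/

set_option autoImplicit false

namespace Pool.Agent.Helper82.TP

open Finset Filter Topology Pool.Agent.Helper69.RK Pool.Agent.Helper31.EC

noncomputable section

open Sp QS

theorem sup_fin_le {L : Type*} [SemilatticeSup L] [OrderBot L] {n : ℕ} (f : Fin n → L) (A : L) :
    Finset.univ.sup f ≤ A ↔ ∀ i, f i ≤ A := by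
  rw [Finset.sup_le_iff]
  simp

/-- independence of a part of the condition -/
theorem I_swap {L : Type*} [PM L] {A B C : L} (h : I A B C = 0) : I B A C = 0 := by rw [I_comm]; exact h

variable {S : Sp} {H : HD S} {w ρ σ r1 : ℝ} {Sc : Set ℝ} {z0 k0 k1 c : ℝ → QS S}

namespace HC

theorem ws_le (hc : HC H w ρ σ r1 Sc z0 k0 k1 c) {s : ℝ} (hs : s ∈ Sc) : w * s ≤ 1 := by
  have h1 := hc.le s hs
  have h2 := hc.hw
  have h3 := hc.hwσ
  nlinarith

theorem two_s_lt (hc : HC H w ρ σ r1 Sc z0 k0 k1 c) {s : ℝ} (hs : s ∈ Sc) : 2 * s < 1 := by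
  have h1 := hc.ws_le hs
  have h2 := hc.hw
  have h3 := hc.pos s hs
  nlinarith

theorem s_lt (hc : HC H w ρ σ r1 Sc z0 k0 k1 c) {s : ℝ} (hs : s ∈ Sc) : s < 1 := by
  have h1 := hc.two_s_lt hs
  have h3 := hc.pos s hs
  linarith

theorem kmono (hc : HC H w ρ σ r1 Sc z0 k0 k1 c) {s s' : ℝ} (hs : s ∈ Sc) (hs' : s' ∈ Sc) (h : s ≤ s') :
    H.κ s ≤ H.κ s' := io_le_of_fun (hc.bdd s' hs') (hc.nest s hs s' hs' h)

theorem lit_mono (hc : HC H w ρ σ r1 Sc z0 k0 k1 c) {s s' : ℝ} (hs : s ∈ Sc) (hs' : s' ∈ Sc) (h : s ≤ s') {f : QS S}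
    (hf : Lit (H.K s) f) : Lit (H.K s') f := hf.of_fun (hc.nest s hs s' hs' h)

theorem t_le (hc : HC H w ρ σ r1 Sc z0 k0 k1 c) {s : ℝ} (hs : s ∈ Sc) : dg H.t s ≤ H.κ s := by
  obtain ⟨t0, h1, h2, _⟩ := hc.tc s hs
  rw [dg_eq_of_sub_mem h2 le_rfl (hc.s_lt hs).le]
  exact h1.dg_le (hc.bdd s hs) (hc.s_lt hs).le

theorem time3 (hc : HC H w ρ σ r1 Sc z0 k0 k1 c) {s : ℝ} (hs : s ∈ Sc) :
    1 - s ≤ h (dg H.t 1) (H.L ⊔ dg H.t s ⊔ H.κ s) := by
  have h1 : I (dg H.t 1) (H.κ s) (H.L ⊔ dg H.t s) = 0 := by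
    rw [I_comm]
    exact hc.leakA s hs
  rw [I_zero_iff_h] at h1
  have e1 : H.L ⊔ dg H.t s ⊔ H.κ s = H.κ s ⊔ (H.L ⊔ dg H.t s) := sup_comm _ _
  rw [e1, h1]
  have h2 := h_chain (dg H.t s) (dg H.t 1) H.L
  have e2 : dg H.t s ⊔ dg H.t 1 = dg H.t 1 := sup_eq_right.mpr (dg_mono H.t (hc.s_lt hs).le)
  rw [e2, hc.time, sup_comm (dg H.t s) H.L] at h2
  have h3 := (h_le_H (dg H.t s) H.L).trans (H_dg_le H.t (hc.pos s hs).le)
  linarith

end HC

/-- a copy over the line, the first digits of the time and the label of the window `s` -/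
structure LC (H : HD S) {W : Sp} (p : Pj W S) (s : ℝ) where
  D : Sp
  p1 : Pj D W
  p2 : Pj D S
  lit : ∀ g, Lit (H.K s) g → p1.qs (p.qs g) = p2.qs g
  cx : p1.qs (p.qs H.x) = p2.qs H.x
  ca : p1.qs (p.qs H.a) = p2.qs H.a
  caR : p1.qs (p.qs H.aR) = p2.qs H.aR
  cv : p1.qs (p.qs H.v) = p2.qs H.v
  caz : p1.qs (p.qs H.az) = p2.qs H.az
  small : p2.qs H.t - p1.qs (p.qs H.t) ∈ Id D s
  real : ∀ X : W.L, 1 - s ≤ h (dg (p2.qs H.t - p1.qs (p.qs H.t)) 1) (p1.map X)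

theorem exists_LC (hc : HC H w ρ σ r1 Sc z0 k0 k1 c) {s : ℝ} (hs : s ∈ Sc) {W : Sp} (p : Pj W S) :
    Nonempty (LC H p s) := by
  have hs1 := (hc.s_lt hs).le
  obtain ⟨D, p1, p2, h1, h2, _, h4, h5, h6⟩ := exists_lab p (H.K s) (hc.bdd s hs)
    ![H.x, H.a, H.aR, H.v, H.az, H.t] ![1, 1, 1, 1, 1, s] (by
      intro i
      fin_cases i
      · exact le_rfl
      · exact le_rfl
      · exact le_rfl
      · exact le_rfl
      · exact le_rfl
      · exact hs1)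
  have hV : (Finset.univ.sup fun i => dg (![H.x, H.a, H.aR, H.v, H.az, H.t] i) (![1, 1, 1, 1, 1, s] i)) =
      H.L ⊔ dg H.t s := by
    apply le_antisymm
    · rw [sup_fin_le]
      intro i
      fin_cases i
      · exact (le_sup_left.trans (le_sup_left.trans le_sup_left)).trans le_sup_left
      · exact (le_sup_right.trans (le_sup_left.trans le_sup_left)).trans le_sup_left
      · exact (le_sup_right.trans le_sup_left).trans le_sup_left
      · exact (le_sup_left.trans le_sup_right).trans le_sup_left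
      · exact (le_sup_right.trans le_sup_right).trans le_sup_left
      · exact le_sup_right
    · have g := (sup_fin_le (fun i => dg (![H.x, H.a, H.aR, H.v, H.az, H.t] i) (![1, 1, 1, 1, 1, s] i)) _).mp le_rfl
      exact sup_le (sup_le (sup_le (sup_le (g 0) (g 1)) (g 2)) (sup_le (g 3) (g 4))) (g 5)
  have hcom : p1.map (p.map (H.κ s ⊔ (H.L ⊔ dg H.t s))) = p2.map (H.κ s ⊔ (H.L ⊔ dg H.t s)) := by
    rw [← hV, p.map_sup, p1.map_sup, p2.map_sup]
    congr 1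
    rw [p.map_finsup, p1.map_finsup, p2.map_finsup]
    congr 1
    funext i
    exact h6 i
  have hz : ∀ f g : QS D, f - g ∈ Id D 1 → f = g := fun f g hfg => sub_eq_zero.mp (mem_Id_one.mp hfg)
  refine ⟨⟨D, p1, p2, h1, hz _ _ (h2 0), hz _ _ (h2 1), hz _ _ (h2 2), hz _ _ (h2 3), hz _ _ (h2 4), ?_, ?_⟩⟩
  · have h7 := h2 5
    have h8 : p2.qs H.t - p1.qs (p.qs H.t) = -(p1.qs (p.qs H.t) - p2.qs H.t) := by ring
    rw [h8]
    exact (Id D s).neg_mem h7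
  · intro X
    have e1 := h4 (X ⊔ p.map (dg H.t 1)) (dg H.t 1)
    rw [hV, show io (H.K s) = H.κ s from rfl, I_zero_iff_h'] at e1
    have e2 : 1 - s ≤ h (p2.map (dg H.t 1)) (p1.map (p.map (H.κ s ⊔ (H.L ⊔ dg H.t s)))) := by
      rw [hcom, Pj.h_map, sup_comm]
      exact hc.time3 hs
    rw [← e1] at e2
    have e3 : p2.map (dg H.t 1) ≤ dg (p2.qs H.t - p1.qs (p.qs H.t)) 1 ⊔ p1.map (X ⊔ p.map (dg H.t 1)) := by
      rw [← p2.qs_dg]
      have e4 : p2.qs H.t = (p2.qs H.t - p1.qs (p.qs H.t)) + p1.qs (p.qs H.t) := by ring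
      have e5 := dg_add_le (p2.qs H.t - p1.qs (p.qs H.t)) (p1.qs (p.qs H.t)) (le_refl (1 : ℝ))
      rw [← e4] at e5
      refine e5.trans (sup_le_sup_left ?_ _)
      rw [p1.qs_dg, p.qs_dg]
      exact p1.map_mono le_sup_right
    have e6 : h (p2.map (dg H.t 1)) (p1.map (X ⊔ p.map (dg H.t 1)) ⊔ p1.map (p.map (H.κ s ⊔ (H.L ⊔ dg H.t s)))) ≤
        h (dg (p2.qs H.t - p1.qs (p.qs H.t)) 1)
          (p1.map (X ⊔ p.map (dg H.t 1)) ⊔ p1.map (p.map (H.κ s ⊔ (H.L ⊔ dg H.t s)))) := by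
      have e7 := h_mono (B := p1.map (X ⊔ p.map (dg H.t 1)) ⊔ p1.map (p.map (H.κ s ⊔ (H.L ⊔ dg H.t s))))
        (e3.trans (sup_le_sup_left le_sup_left _ :
        dg (p2.qs H.t - p1.qs (p.qs H.t)) 1 ⊔ p1.map (X ⊔ p.map (dg H.t 1)) ≤
          dg (p2.qs H.t - p1.qs (p.qs H.t)) 1 ⊔
            (p1.map (X ⊔ p.map (dg H.t 1)) ⊔ p1.map (p.map (H.κ s ⊔ (H.L ⊔ dg H.t s))))))
      rw [h_sup_right_of_le (le_refl _)] at e7
      exact e7
    refine e2.trans (e6.trans (h_anti ?_))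
    exact (p1.map_mono le_sup_left).trans le_sup_left

/-- a copy over the point and the label of the window `s` -/
structure PC (H : HD S) {W : Sp} (p : Pj W S) (s : ℝ) where
  D : Sp
  p1 : Pj D W
  p2 : Pj D S
  lit : ∀ g, Lit (H.K s) g → p1.qs (p.qs g) = p2.qs g
  ct : p1.qs (p.qs H.t) = p2.qs H.t
  cy : p1.qs (p.qs H.y) = p2.qs H.y
  cR : p1.qs (p.qs H.R) = p2.qs H.R
  cz : p1.qs (p.qs H.z) = p2.qs H.z
  com : p1.map (p.map (H.κ s ⊔ H.B)) = p2.map (H.κ s ⊔ H.B)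
  ind : ∀ x y, I (p1.map x) (p2.map y) (p1.map (p.map (H.κ s ⊔ H.B))) = 0

theorem exists_PC (hc : HC H w ρ σ r1 Sc z0 k0 k1 c) {s : ℝ} (hs : s ∈ Sc) {W : Sp} (p : Pj W S) :
    Nonempty (PC H p s) := by
  obtain ⟨D, p1, p2, h1, h2, _, h4, h5, h6⟩ := exists_lab p (H.K s) (hc.bdd s hs)
    ![H.t, H.y, H.R, H.z] ![1, 1, 1, 1] (by
      intro i
      fin_cases i
      · exact le_rfl
      · exact le_rfl
      · exact le_rfl
      · exact le_rfl)
  have hV : (Finset.univ.sup fun i => dg (![H.t, H.y, H.R, H.z] i) ((![1, 1, 1, 1] : Fin 4 → ℝ) i)) = H.B := by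
    apply le_antisymm
    · rw [sup_fin_le]
      intro i
      fin_cases i
      · exact le_sup_left.trans (le_sup_left.trans le_sup_left)
      · exact le_sup_right.trans (le_sup_left.trans le_sup_left)
      · exact le_sup_right.trans le_sup_left
      · exact le_sup_right
    · have g := (sup_fin_le (fun i => dg (![H.t, H.y, H.R, H.z] i) ((![1, 1, 1, 1] : Fin 4 → ℝ) i)) _).mp le_rfl
      exact sup_le (sup_le (sup_le (g 0) (g 1)) (g 2)) (g 3)
  have hcom : p1.map (p.map (H.κ s ⊔ H.B)) = p2.map (H.κ s ⊔ H.B) := by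
    rw [← hV, p.map_sup, p1.map_sup, p2.map_sup]
    congr 1
    rw [p.map_finsup, p1.map_finsup, p2.map_finsup]
    congr 1
    funext i
    exact h6 i
  have hz : ∀ f g : QS D, f - g ∈ Id D 1 → f = g := fun f g hfg => sub_eq_zero.mp (mem_Id_one.mp hfg)
  refine ⟨⟨D, p1, p2, h1, hz _ _ (h2 0), hz _ _ (h2 1), hz _ _ (h2 2), hz _ _ (h2 3), hcom, ?_⟩⟩
  intro x y
  have h7 := h4 x y
  rw [hV] at h7
  exact h7

namespace HC

/-- the velocity of `z` in the box of a label -/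
theorem vel (hc : HC H w ρ σ r1 Sc z0 k0 k1 c) {s : ℝ} (hs : s ∈ Sc) :
    H.v - (k0 s + k1 s * H.x + c s * H.a) ∈ Id S (w * s - s) := by
  obtain ⟨D⟩ := exists_LC hc hs (Pj.id S)
  have hi : ∀ f : QS S, (Pj.id S).qs f = f := fun f => Pj.id_qs f
  have e1 := Pj_mem_Id D.p1 (hc.frZ s hs)
  have e2 := Pj_mem_Id D.p2 (hc.frZ s hs)
  have hs1 := hc.s_lt hs
  have a1 := D.lit _ (hc.lz0 s hs)
  have a2 := D.lit _ (hc.lk0 s hs)
  have a3 := D.lit _ (hc.lk1 s hs)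
  have a4 := D.lit _ (hc.lc s hs)
  have b1 := D.cx
  have b2 := D.ca
  have b3 := D.caR
  have b4 := D.cv
  have b5 := D.caz
  rw [hi] at a1 a2 a3 a4 b1 b2 b3 b4 b5
  have hy : ∀ q : Pj D.D S, q.qs H.y = q.qs H.a + q.qs H.t * q.qs H.x := by
    intro q
    unfold HD.a
    rw [map_sub, map_mul]; ring
  have hR : ∀ q : Pj D.D S, q.qs H.R = q.qs H.aR + q.qs H.t * q.qs H.a := by
    intro q
    unfold HD.aR
    rw [map_sub, map_mul]; ring
  have hzz : ∀ q : Pj D.D S, q.qs H.z = q.qs H.az + q.qs H.t * q.qs H.v := by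
    intro q
    unfold HD.az
    rw [map_sub, map_mul]; ring
  have e3 : (D.p2.qs H.t - D.p1.qs ((Pj.id S).qs H.t)) * D.p1.qs (H.v - (k0 s + k1 s * H.x + c s * H.a)) ∈
      Id D.D (w * s) := by
    have e4 := (Id D.D (w * s)).sub_mem e2 e1
    have e5 : (D.p2.qs H.t - D.p1.qs ((Pj.id S).qs H.t)) * D.p1.qs (H.v - (k0 s + k1 s * H.x + c s * H.a)) =
        D.p2.qs (H.z - (z0 s + k0 s * H.t + k1 s * H.y + c s * H.R)) -
          D.p1.qs (H.z - (z0 s + k0 s * H.t + k1 s * H.y + c s * H.R)) := by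
      rw [hi]
      simp only [map_sub, map_add, map_mul, hy, hR, hzz, ← a1, ← a2, ← a3, ← a4, ← b1, ← b2, ← b3, ← b4, ← b5]
      ring
    rw [e5]
    exact e4
  have e6 := div_small hs1.le D.small (D.real ⊥) (hc.ws_le hs) e3
  have hws := hc.ws_le hs
  exact (Pj.qs_mem_Id D.p1 (by have := hc.pos s hs; linarith)).mp e6

end HC

end

end Pool.Agent.Helper82.TP
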