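import Pool.Agent.Helper82.TP.Last
import Pool.Agent.Helper81.TP.Main

/-! THE THIN PARALLELOGRAM (notes 82e): in the corner over the real Heisenberg group, with `z` of weight larger than two
and robustly unsaturated, the first digits of the frame of a label are known to the point and to the line. -/

set_option autoImplicit false

namespace Pool.Agent.Helper82.TP

open Finset Filter Topology Pool.Agent.Helper69.RK Pool.Agent.Helper31.EC Pool.Agent.Helper38.NS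

noncomputable section

open Sp QS Pool.Agent.Helper81.TP

variable {S : Sp} {H : HD S} {w ρ σ r1 : ℝ} {Sc : Set ℝ} {z0 k0 k1 c : ℝ → QS S}

theorem HD.ts_iso {κ : Type} [Fintype κ] (k : κ → QS S) (r : ℝ) : (H.ts k).iso r = H.iso r := by
  unfold TS.iso HD.iso
  rw [HD.ts_y]
  rfl

theorem HD.ts_iM {κ : Type} [Fintype κ] (k : κ → QS S) : (H.ts k).iM = H.M := by
  unfold TS.iM HD.M TS.iY
  rw [HD.ts_y]
  rfl

/-- indices of the two frames among the labels -/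
def jj : Fin 4 → Fin 12 := ![0, 1, 2, 3]
def ii : Fin 7 → Fin 12 := ![5, 6, 7, 8, 9, 10, 11]

theorem HC.dh (hc : HC H w ρ σ r1 Sc z0 k0 k1 c) {η : ℝ} (hη : 0 < η) (hmm : Mesh Sc σ η) {s s2 v : ℝ} (hs : s ∈ Sc)
    (hs2 : s2 ∈ Sc) (h : 2 * s ≤ s2) (hwr : w * s ≤ r1) (hv0 : 0 ≤ v) (hv : v ≤ w * s - 2 * s - 3 * η)
    (hv2 : v ≤ s2) (hv3 : v ≤ w * s - s2)
    (t0 a0 a1 a2 : QS S) (h0 : Lit (H.K s) a0) (h1 : Lit (H.K s) a1) (h2 : Lit (H.K s) a2)
    (hR : H.R - (a0 + a1 * H.t + a2 * H.y) ∈ Id S (2 * s)) :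
    (H.ts ![z0 s2, k0 s2, k1 s2, c s2, t0, z0 s, k0 s, k1 s, c s, a0, a1, a2]).DH jj ii s2 (2 * s) (s2 + v)
      (w * s - 2 * s) ρ := by
  have hp := hc.pos s hs
  have hp2 := hc.pos s2 hs2
  have hw := hc.hw
  have hws := hc.ws_le hs
  have hws2 := hc.ws_le hs2
  have hs1 := hc.s_lt hs
  have hs21 := hc.s_lt hs2
  have hm : s2 + v ≤ w * s := by linarith
  have hal : (H.ts ![z0 s2, k0 s2, k1 s2, c s2, t0, z0 s, k0 s, k1 s, c s, a0, a1, a2]).al jj = H.al k1 c s2 := rfl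
  have hbe : (H.ts ![z0 s2, k0 s2, k1 s2, c s2, t0, z0 s, k0 s, k1 s, c s, a0, a1, a2]).be jj = H.be k0 c s2 := by
    unfold TS.be
    rw [HD.ts_y]
    rfl
  refine
    { hR := ?_, hz := ?_, hV := ?_, hJ := ?_, hF := ?_, hJ2 := ?_, hC := ?_, hW1 := ?_, hW2 := ?_, hW3 := ?_,
      hS := ?_, hU := ?_, hI := ?_, hρ := hc.hρ, hc0 := by linarith, hcu := h, hub := by linarith,
      hb := by linarith, hbu := by linarith, hbr := by linarith, hbc := by linarith }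
  · show H.R = H.aR + H.t * H.a
    unfold HD.aR; ring
  · show H.z = H.az + H.t * H.v
    unfold HD.az; ring
  · rw [hal, hbe]
    refine Id_anti ?_ (hc.vel' hs2)
    have e1 : w * s ≤ w * (s2 / 2) := mul_le_mul_of_nonneg_left (by linarith) (by linarith)
    nlinarith
  · rw [HD.ts_y]
    exact Id_anti hm (hc.frZ s hs)
  · rw [HD.ts_y]
    exact hR
  · rw [HD.ts_y]
    refine Id_anti ?_ (hc.frZ s2 hs2)
    nlinarith
  · refine Id_anti ?_ (hc.c_sub hη hmm hs hs2 (by linarith))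
    linarith
  · rw [HD.ts_iso]
    exact hc.c_iso hs hwr
  · rw [hal, HD.ts_iso]
    exact hc.al_iso hs hs2 h hwr (by linarith) (by linarith)
  · rw [HD.ts_iso]
    exact hc.c_iso' hη hmm hs hs2 (by linarith) hwr (by linarith)
  · rw [HD.ts_iM]
    exact (dg_mono H.v (hm.trans hwr)).trans hc.slope
  · rw [HD.ts_iM]
    exact hc.uns
  · rw [HD.ts_iM]
    have e1 : (H.ts ![z0 s2, k0 s2, k1 s2, c s2, t0, z0 s, k0 s, k1 s, c s, a0, a1, a2]).iY = dg H.y 1 := by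
      unfold TS.iY
      rw [HD.ts_y]
    rw [e1]
    have i1 := hc.isoM s hs
    have m1 := H.iso_le_M (r := 2 * s) (by linarith)
    have m2 := H.t_le_M
    have m3 := H.y_le_M
    have m4 := (dg_mono H.R (show 2 * s ≤ 1 by linarith)).trans H.R_le_M
    have m5 : H.iso (2 * s) ≤ dg H.t 1 ⊔ dg H.y 1 ⊔ dg H.R (2 * s) := by
      have n1 := dg_mono H.t (show 2 * s ≤ 1 by linarith)
      have n2 := dg_mono H.y (show 2 * s ≤ 1 by linarith)
      unfold HD.iso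
      order
    have m6 : vd ((H.ts ![z0 s2, k0 s2, k1 s2, c s2, t0, z0 s, k0 s, k1 s, c s, a0, a1, a2]).jf ii) 1 ≤
        H.κ s ⊔ (dg H.t 1 ⊔ dg H.y 1 ⊔ dg H.R (2 * s)) := by
      have hb := hc.bdd s hs
      have hk : H.κ s = io (H.K s) := rfl
      rw [vd_le]
      rintro (a | a)
      · fin_cases a
        · show dg H.t 1 ≤ _
          order
        · show dg ((H.ts _).y) 1 ≤ _
          rw [HD.ts_y]
          order
      · rw [hk]
        refine le_trans ?_ (le_sup_left : io (H.K s) ≤ _)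
        fin_cases a
        · exact (hc.lz0 s hs).dg_le hb le_rfl
        · exact (hc.lk0 s hs).dg_le hb le_rfl
        · exact (hc.lk1 s hs).dg_le hb le_rfl
        · exact (hc.lc s hs).dg_le hb le_rfl
        · exact h0.dg_le hb le_rfl
        · exact h1.dg_le hb le_rfl
        · exact h2.dg_le hb le_rfl
    exact ind_of i1 m5 (show dg H.t 1 ⊔ dg H.y 1 ⊔ dg H.R (2 * s) ≤ H.M ⊔ H.iso (2 * s) by order) m6 le_sup_left

/-- the choice of the scales `s`, `s2` and of the precision `v` -/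
def Scl (w σ r1 : ℝ) (Sc : Set ℝ) (η s s2 v : ℝ) : Prop :=
  s ∈ Sc ∧ s2 ∈ Sc ∧ 2 * s ≤ s2 ∧ w * s ≤ r1 ∧ 0 < v ∧ v ≤ w * s - 2 * s - 3 * η ∧ v ≤ s2 ∧ v ≤ w * s - s2 ∧ v ≤ r1

theorem exists_scl {w σ r1 : ℝ} (hw : 2 < w) (hσ : 0 < σ) (hr1 : 0 < r1) : ∃ η : ℝ, 0 < η ∧
    ∀ Sc : Set ℝ, Mesh Sc σ η → ∃ s s2 v : ℝ, Scl w σ r1 Sc η s s2 v := by
  have hw0 : 0 < w := by linarith
  obtain ⟨m, hm⟩ : ∃ m : ℝ, m = min σ (r1 / w) := ⟨_, rfl⟩
  have hm0 : 0 < m := by rw [hm]; exact lt_min hσ (div_pos hr1 hw0)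
  have hmσ : m ≤ σ := by rw [hm]; exact min_le_left _ _
  have hmr : w * m ≤ r1 := by
    have : m ≤ r1 / w := by rw [hm]; exact min_le_right _ _
    rw [le_div_iff₀ hw0] at this
    linarith
  obtain ⟨η, hη⟩ : ∃ η : ℝ, η = m * (w - 2) / (16 * w) := ⟨_, rfl⟩
  have h16 : 16 * w * η = m * (w - 2) := by rw [hη]; field_simp
  have hη0 : 0 < η := by rw [hη]; exact div_pos (mul_pos hm0 (by linarith)) (by linarith)
  have hηm : 16 * η < m := by
    have h1 : w * (16 * η) < w * m := by nlinarith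
    exact lt_of_mul_lt_mul_left h1 hw0.le
  refine ⟨η, hη0, fun Sc hM => ?_⟩
  obtain ⟨s2, hs2, g1, g2⟩ := hM (m / 2) m (by linarith) (by linarith) hmσ
  have hp2 : 0 < s2 := by linarith
  have hlt : s2 / w + η < s2 / 2 := by
    have h1 : w * (s2 / w) = s2 := by field_simp
    have h2 : w * (s2 / w + η) < w * (s2 / 2) := by
      rw [mul_add, h1]
      nlinarith
    exact lt_of_mul_lt_mul_left h2 hw0.le
  obtain ⟨s, hs, g3, g4⟩ := hM (s2 / w) (s2 / 2) (div_pos hp2 hw0) hlt (by linarith)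
  rw [div_lt_iff₀ hw0] at g3
  have hp : 0 < s := by
    by_contra hcon
    push Not at hcon
    nlinarith
  have h3 : 0 < w * s - 2 * s - 3 * η := by
    have h4 : m < 2 * (w * s) := by nlinarith
    have h5 : w * (3 * η) < w * (w * s - 2 * s) := by nlinarith
    have := lt_of_mul_lt_mul_left h5 hw0.le
    linarith
  obtain ⟨v, hv⟩ : ∃ v : ℝ, v = min (w * s - 2 * s - 3 * η) (min (w * s - s2) s2) := ⟨_, rfl⟩
  have hv0 : 0 < v := by
    rw [hv]
    exact lt_min h3 (lt_min (by linarith) hp2)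
  have hv1 : v ≤ w * s - 2 * s - 3 * η := by rw [hv]; exact min_le_left _ _
  have hv2 : v ≤ s2 := by rw [hv]; exact (min_le_right _ _).trans (min_le_right _ _)
  have hv3 : v ≤ w * s - s2 := by rw [hv]; exact (min_le_right _ _).trans (min_le_left _ _)
  exact ⟨s, s2, v, hs, hs2, by linarith, by nlinarith, hv0, hv1, hv2, hv3, by nlinarith⟩

/-- **THE THIN PARALLELOGRAM.** The first `v` digits of the frame of the label at the scale `s2` are known to the point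
and to the line. -/
theorem HC.goal (hc : HC H w ρ σ r1 Sc z0 k0 k1 c) {η s s2 v : ℝ} (hη : 0 < η) (hmm : Mesh Sc σ η)
    (hS : Scl w σ r1 Sc η s s2 v) :
    dg (z0 s2) v ⊔ dg (k0 s2) v ⊔ dg (k1 s2) v ⊔ dg (c s2) v ≤ H.B ∧
    dg (z0 s2) v ⊔ dg (k0 s2) v ⊔ dg (k1 s2) v ⊔ dg (c s2) v ≤ H.L := by
  obtain ⟨hs, hs2, g4, hwr, hv0, hv1, hv2, hv3, hvr⟩ := hS
  have hs21 := hc.s_lt hs2
  obtain ⟨t0, l1, l2, l3⟩ := hc.tc s2 hs2
  obtain ⟨a0, a1, a2, b0, b1, b2, b3⟩ := hc.frR s hs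
  have hd := hc.dh hη hmm hs hs2 g4 hwr hv0.le hv1 hv2 hv3 t0 a0 a1 a2 b0 b1 b2 b3
  obtain ⟨k, hk⟩ : ∃ k : Fin 12 → QS S, k = ![z0 s2, k0 s2, k1 s2, c s2, t0, z0 s, k0 s, k1 s, c s, a0, a1, a2] :=
    ⟨_, rfl⟩
  have hlit : ∀ j, Lit (H.K s2) (k j) := by
    have hle : s ≤ s2 := by have := hc.pos s hs; linarith
    intro j
    rw [hk]
    fin_cases j
    · exact hc.lz0 s2 hs2
    · exact hc.lk0 s2 hs2
    · exact hc.lk1 s2 hs2
    · exact hc.lc s2 hs2
    · exact l1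
    · exact hc.lit_mono hs hs2 hle (hc.lz0 s hs)
    · exact hc.lit_mono hs hs2 hle (hc.lk0 s hs)
    · exact hc.lit_mono hs hs2 hle (hc.lk1 s hs)
    · exact hc.lit_mono hs hs2 hle (hc.lc s hs)
    · exact hc.lit_mono hs hs2 hle b0
    · exact hc.lit_mono hs hs2 hle b1
    · exact hc.lit_mono hs hs2 hle b2
  have ht : ∃ j, H.t - k j ∈ Id S s2 := ⟨4, by rw [hk]; exact l2⟩
  rw [← hk] at hd
  have hh := hc.ts_hyp hs2 k hlit ht
  obtain ⟨w'⟩ := TS.exists_star (H.ts k)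
  obtain ⟨v'⟩ := TS.exists_zed (H.ts k) w'
  obtain ⟨g⟩ := TS.exists_rct v'
  have hX := hc.ts_unit hs2 k hlit ht w'
  have key : ∀ a : Fin 4, dg (k (jj a)) v ≤ H.L := by
    intro a
    have h1 := g.frame_eq hd hh hX a
    have e1 : s2 + v - s2 = v := by ring
    rw [e1] at h1
    have h2 := rct_last hh g (k (jj a)) (dg_le_vd (H.ts k).fp 1 (Sum.inr (Sum.inr (jj a)))) (w'.ck (jj a))
      (show v ≤ 1 by linarith) h1
    rwa [HD.ts_iL] at h2
  refine ⟨hc.frame_B hη hmm hs hs2 g4 hwr hv1 hv2 hvr, ?_⟩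
  have q0 := key 0
  have q1 := key 1
  have q2 := key 2
  have q3 := key 3
  rw [hk] at q0 q1 q2 q3
  exact sup_le (sup_le (sup_le q0 q1) q2) q3

end

end Pool.Agent.Helper82.TP
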