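import Pool.Agent.Helper82.TP.Sqr

/-! Lemma MB: a label which is known to the point and to the line is independent of the point of the Heisenberg
group (mixing of the walk over the Heisenberg group). -/

set_option autoImplicit false

namespace Pool.Agent.Helper82.TP

open Finset Filter Topology Pool.Agent.Helper69.RK Pool.Agent.Helper31.EC Pool.Agent.Helper38.NS

noncomputable section

open Sp QS

variable {S : Sp} (H : HD S) {β : ℕ → Type} (V : ∀ k, (S.F k).Ω → β k)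

/-- a copy over the line and a label known to the line -/
structure LV {W : Sp} (p : Pj W S) where
  D : Sp
  p1 : Pj D W
  p2 : Pj D S
  cx : p1.qs (p.qs H.x) = p2.qs H.x
  ca : p1.qs (p.qs H.a) = p2.qs H.a
  caR : p1.qs (p.qs H.aR) = p2.qs H.aR
  cV : p1.map (p.map (io V)) = p2.map (io V)
  real : ∀ X : W.L, 1 ≤ h (p2.map (dg H.t 1)) (p1.map X)

/-- a copy over the point and a label known to the point -/
structure BV {W : Sp} (p : Pj W S) where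
  D : Sp
  p1 : Pj D W
  p2 : Pj D S
  ct : p1.qs (p.qs H.t) = p2.qs H.t
  cy : p1.qs (p.qs H.y) = p2.qs H.y
  cR : p1.qs (p.qs H.R) = p2.qs H.R
  cV : p1.map (p.map (io V)) = p2.map (io V)
  dir : ∀ X : W.L, I (p2.map (dg H.x 1)) (p1.map X) ⊥ = 0
  unit : ∀ f : QS W, IsUnit (p1.qs f - p2.qs H.x)

variable {H V}

theorem exists_LV (hV : Bdd V) (hL : io V ≤ H.L) (ht : h (dg H.t 1) H.L = 1) {W : Sp} (p : Pj W S) :
    Nonempty (LV H V p) := by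
  obtain ⟨D, p1, p2, _, h2, _, h4, h5, h6⟩ := exists_lab p V hV
    ![H.x, H.a, H.aR, H.v, H.az] ![1, 1, 1, 1, 1] (by
      intro i
      fin_cases i
      · exact le_rfl
      · exact le_rfl
      · exact le_rfl
      · exact le_rfl
      · exact le_rfl)
  have hS : (Finset.univ.sup fun i => dg (![H.x, H.a, H.aR, H.v, H.az] i) ((![1, 1, 1, 1, 1] : Fin 5 → ℝ) i)) =
      H.L := by
    apply le_antisymm
    · rw [sup_fin_le]
      intro i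
      unfold HD.L
      fin_cases i
      · exact le_sup_left.trans (le_sup_left.trans le_sup_left)
      · exact le_sup_right.trans (le_sup_left.trans le_sup_left)
      · exact le_sup_right.trans le_sup_left
      · exact le_sup_left.trans le_sup_right
      · exact le_sup_right.trans le_sup_right
    · have g := (sup_fin_le (fun i => dg (![H.x, H.a, H.aR, H.v, H.az] i)
        ((![1, 1, 1, 1, 1] : Fin 5 → ℝ) i)) _).mp le_rfl
      exact sup_le (sup_le (sup_le (g 0) (g 1)) (g 2)) (sup_le (g 3) (g 4))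
  rw [hS, sup_eq_right.mpr hL] at h4
  have hcom : p1.map (p.map H.L) = p2.map H.L := by
    rw [← hS, p.map_finsup, p1.map_finsup, p2.map_finsup]
    congr 1
    funext i
    exact h6 i
  have hz : ∀ f g : QS D, f - g ∈ Id D 1 → f = g := fun f g hfg => sub_eq_zero.mp (mem_Id_one.mp hfg)
  refine ⟨⟨D, p1, p2, hz _ _ (h2 0), hz _ _ (h2 1), hz _ _ (h2 2), h5, ?_⟩⟩
  intro X
  have e1 := h4 X (dg H.t 1)
  rw [I_zero_iff_h', hcom, p2.h_map, ht] at e1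
  rw [← hcom] at e1
  refine e1.ge.trans (h_anti ?_)
  exact le_sup_left

theorem exists_BV (hV : Bdd V) (hB : io V ≤ H.B) (hx : I (dg H.x 1) H.B ⊥ = 0)
    (hr : ∀ (T : Sp) (p : Pj T S) (E : ∀ k, (T.F k).Ω → Prop) (hE : 0 < ul (T.pr E)) (r : ℝ), 0 < r → r ≤ 1 →
      0 < h (restL E hE (p.map (dg H.x r))) (restL E hE (p.map H.B))) {W : Sp} (p : Pj W S) :
    Nonempty (BV H V p) := by
  obtain ⟨D, p1, p2, _, h2, _, h4, h5, h6⟩ := exists_lab p V hV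
    ![H.t, H.y, H.R, H.z] ![1, 1, 1, 1] (by
      intro i
      fin_cases i
      · exact le_rfl
      · exact le_rfl
      · exact le_rfl
      · exact le_rfl)
  have hS : (Finset.univ.sup fun i => dg (![H.t, H.y, H.R, H.z] i) ((![1, 1, 1, 1] : Fin 4 → ℝ) i)) = H.B := by
    apply le_antisymm
    · rw [sup_fin_le]
      intro i
      unfold HD.B
      fin_cases i
      · exact le_sup_left.trans (le_sup_left.trans le_sup_left)
      · exact le_sup_right.trans (le_sup_left.trans le_sup_left)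
      · exact le_sup_right.trans le_sup_left
      · exact le_sup_right
    · have g := (sup_fin_le (fun i => dg (![H.t, H.y, H.R, H.z] i) ((![1, 1, 1, 1] : Fin 4 → ℝ) i)) _).mp le_rfl
      exact sup_le (sup_le (sup_le (g 0) (g 1)) (g 2)) (g 3)
  rw [hS, sup_eq_right.mpr hB] at h4
  have hcom : p1.map (p.map H.B) = p2.map H.B := by
    rw [← hS, p.map_finsup, p1.map_finsup, p2.map_finsup]
    congr 1
    funext i
    exact h6 i
  have hz : ∀ f g : QS D, f - g ∈ Id D 1 → f = g := fun f g hfg => sub_eq_zero.mp (mem_Id_one.mp hfg)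
  have hdir : ∀ X : W.L, I (p2.map (dg H.x 1)) (p1.map X) ⊥ = 0 := by
    intro X
    have i1 : I (p2.map (dg H.x 1)) (p1.map (p.map H.B)) ⊥ = 0 := by
      have := p2.I_map (dg H.x 1) H.B ⊥
      rw [hx, p2.map_bot, ← hcom] at this
      exact this
    have i2 := ind_add i1 (ind_symm (h4 X (dg H.x 1))) (by rw [sup_bot_eq])
    exact I_zero_mono i2 le_sup_left (by order)
  refine ⟨⟨D, p1, p2, hz _ _ (h2 0), hz _ _ (h2 1), hz _ _ (h2 2), h5, hdir, ?_⟩⟩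
  intro f
  apply isUnit_sub_rich (C := p2.map H.B)
  · rw [p1.qs_dg, p2.qs_dg]
    have i3 := hdir (dg f 1 ⊔ p.map H.B)
    rw [p1.map_sup, hcom] at i3
    exact ind_symm (ind_of i3 bot_le (by order) le_sup_left (by order))
  · intro E hE r h0 h1
    rw [p2.qs_dg]
    exact hr D p2 E hE r h0 h1

/-- two heights are known to the sum and the sum of squares, with unit weights -/
theorem two_heights {D : Sp} (t1 t2 d0 d1 P Q : QS D) (A : D.L) (h0 : IsUnit d0) (h1 : IsUnit d1)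
    (h2 : IsUnit (d0 + d1)) (h3 : IsUnit (t1 - t2)) (hP : P = t1 * d0 + t2 * d1) (hQ : Q = t1 * t1 * d0 + t2 * t2 * d1)
    (a0 : dg d0 1 ≤ A) (a1 : dg d1 1 ≤ A) (a2 : dg P 1 ≤ A) (a3 : dg Q 1 ≤ A) : dg t1 1 ⊔ dg t2 1 ≤ A := by
  obtain ⟨u0, hu0⟩ := h0
  obtain ⟨u1, hu1⟩ := h1
  obtain ⟨u2, hu2⟩ := h2
  have i0 : (↑u0⁻¹ : QS D) * d0 = 1 := by rw [← hu0]; exact u0.inv_mul
  have i1 : (↑u1⁻¹ : QS D) * d1 = 1 := by rw [← hu1]; exact u1.inv_mul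
  have i2 : (↑u2⁻¹ : QS D) * (d0 + d1) = 1 := by rw [← hu2]; exact u2.inv_mul
  have b0 : dg (↑u0⁻¹ : QS D) 1 ≤ A := (dg_inv_le i0 le_rfl).trans a0
  have b1 : dg (↑u1⁻¹ : QS D) 1 ≤ A := (dg_inv_le i1 le_rfl).trans a1
  have b2 : dg (↑u2⁻¹ : QS D) 1 ≤ A := (dg_inv_le i2 le_rfl).trans (dg_add_le' _ _ le_rfl a0 a1)
  have e1 : (t1 - t2) * (t1 - t2) = ↑u0⁻¹ * ↑u1⁻¹ * ((d0 + d1) * Q - P * P) := by
    rw [hP, hQ]
    linear_combination (-(t1 - t2) * (t1 - t2) * (↑u1⁻¹ * d1)) * i0 + (-(t1 - t2) * (t1 - t2)) * i1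
  have e2 : dg (t1 - t2) 1 ≤ A := by
    refine (dg_sqr_le _ h3 le_rfl).trans ?_
    rw [e1]
    exact dg_mul_le' _ _ le_rfl (dg_mul_le' _ _ le_rfl b0 b1)
      (dg_sub_le' _ _ le_rfl (dg_mul_le' _ _ le_rfl (dg_add_le' _ _ le_rfl a0 a1) a3) (dg_mul_le' _ _ le_rfl a2 a2))
  have e3 : t1 = ↑u2⁻¹ * (P + (t1 - t2) * d1) := by
    rw [hP]
    linear_combination (-t1) * i2
  have e4 : dg t1 1 ≤ A := by
    rw [e3]
    exact dg_mul_le' _ _ le_rfl b2 (dg_add_le' _ _ le_rfl a2 (dg_mul_le' _ _ le_rfl e2 a1))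
  have e5 : t2 = t1 - (t1 - t2) := by ring
  refine sup_le e4 ?_
  rw [e5]
  exact dg_sub_le' _ _ le_rfl e4 e2

/-- a label known to the point and to the line leaves the line full over its direction -/
theorem mb2 (hV : Bdd V) (hB : io V ≤ H.B) (hL : io V ≤ H.L) (ht : h (dg H.t 1) H.L = 1)
    (hx : I (dg H.x 1) H.B ⊥ = 0)
    (hr : ∀ (T : Sp) (p : Pj T S) (E : ∀ k, (T.F k).Ω → Prop) (hE : 0 < ul (T.pr E)) (r : ℝ), 0 < r → r ≤ 1 →
      0 < h (restL E hE (p.map (dg H.x r))) (restL E hE (p.map H.B))) : 2 ≤ h (dg H.a 1 ⊔ dg H.aR 1) (dg H.x 1 ⊔ io V) := by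
  obtain ⟨D1⟩ := exists_BV hV hB hx hr (Pj.id S)
  obtain ⟨D2⟩ := exists_LV hV hL ht D1.p2
  obtain ⟨D3⟩ := exists_BV hV hB hx hr D2.p2
  have hi : ∀ f : QS S, (Pj.id S).qs f = f := fun f => Pj.id_qs f
  have hm : ∀ f : S.L, (Pj.id S).map f = f := fun f => Pj.id_map f
  -- the functions
  obtain ⟨t1, ht1⟩ : ∃ f, f = D3.p1.qs (D2.p1.qs (D1.p1.qs H.t)) := ⟨_, rfl⟩
  obtain ⟨x0, hx0⟩ : ∃ f, f = D3.p1.qs (D2.p1.qs (D1.p1.qs H.x)) := ⟨_, rfl⟩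
  obtain ⟨a0, ha0⟩ : ∃ f, f = D3.p1.qs (D2.p1.qs (D1.p1.qs H.a)) := ⟨_, rfl⟩
  obtain ⟨b0, hb0⟩ : ∃ f, f = D3.p1.qs (D2.p1.qs (D1.p1.qs H.aR)) := ⟨_, rfl⟩
  obtain ⟨x1, hx1⟩ : ∃ f, f = D3.p1.qs (D2.p1.qs (D1.p2.qs H.x)) := ⟨_, rfl⟩
  obtain ⟨a1, ha1⟩ : ∃ f, f = D3.p1.qs (D2.p1.qs (D1.p2.qs H.a)) := ⟨_, rfl⟩
  obtain ⟨b1, hb1⟩ : ∃ f, f = D3.p1.qs (D2.p1.qs (D1.p2.qs H.aR)) := ⟨_, rfl⟩
  obtain ⟨t2, ht2⟩ : ∃ f, f = D3.p1.qs (D2.p2.qs H.t) := ⟨_, rfl⟩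
  obtain ⟨x2, hx2⟩ : ∃ f, f = D3.p2.qs H.x := ⟨_, rfl⟩
  obtain ⟨a2, ha2⟩ : ∃ f, f = D3.p2.qs H.a := ⟨_, rfl⟩
  obtain ⟨b2, hb2⟩ : ∃ f, f = D3.p2.qs H.aR := ⟨_, rfl⟩
  -- geometry
  have c1 := D1.ct
  have c2 := D1.cy
  have c3 := D1.cR
  rw [hi] at c1 c2 c3
  have hat : ∀ q : Pj D1.D S, q.qs H.a = q.qs H.y - q.qs H.t * q.qs H.x := by
    intro q; unfold HD.a; rw [map_sub, map_mul]
  have hbt : ∀ q : Pj D1.D S, q.qs H.aR = q.qs H.R - q.qs H.t * q.qs H.a := by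
    intro q; unfold HD.aR; rw [map_sub, map_mul]
  have hat' : ∀ q : Pj D2.D S, q.qs H.a = q.qs H.y - q.qs H.t * q.qs H.x := by
    intro q; unfold HD.a; rw [map_sub, map_mul]
  have hbt' : ∀ q : Pj D2.D S, q.qs H.aR = q.qs H.R - q.qs H.t * q.qs H.a := by
    intro q; unfold HD.aR; rw [map_sub, map_mul]
  have hat'' : ∀ q : Pj D3.D S, q.qs H.a = q.qs H.y - q.qs H.t * q.qs H.x := by
    intro q; unfold HD.a; rw [map_sub, map_mul]
  have hbt'' : ∀ q : Pj D3.D S, q.qs H.aR = q.qs H.R - q.qs H.t * q.qs H.a := by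
    intro q; unfold HD.aR; rw [map_sub, map_mul]
  have g1 : D1.p2.qs H.a = D1.p1.qs H.a + D1.p1.qs H.t * (D1.p1.qs H.x - D1.p2.qs H.x) := by
    rw [hat, hat, ← c1, ← c2]; ring
  have g2 : D1.p2.qs H.aR = D1.p1.qs H.aR - D1.p1.qs H.t * D1.p1.qs H.t * (D1.p1.qs H.x - D1.p2.qs H.x) := by
    rw [hbt, hbt, ← c1, ← c3, g1]; ring
  have g3 : a1 = a0 + t1 * (x0 - x1) := by
    rw [ha1, ha0, ht1, hx0, hx1, g1]; simp only [map_add, map_mul, map_sub]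
  have g4 : b1 = b0 - t1 * t1 * (x0 - x1) := by
    rw [hb1, hb0, ht1, hx0, hx1, g2]; simp only [map_mul, map_sub]
  have g5 : a2 = a1 + t2 * (x1 - x2) := by
    have e1 : D3.p1.qs (D2.p2.qs H.a) = a1 := by rw [← D2.ca, ha1]
    have e2 : D3.p1.qs (D2.p2.qs H.x) = x1 := by rw [← D2.cx, hx1]
    have e3 := congrArg D3.p1.qs (hat' D2.p2)
    rw [map_sub, map_mul, e1, e2, D3.ct, D3.cy] at e3
    rw [ha2, hat'', ht2, hx2, D3.ct, e3]
    ring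
  have g6 : b2 = b1 - t2 * t2 * (x1 - x2) := by
    have e0 : D3.p1.qs (D2.p2.qs H.a) = a1 := by rw [← D2.ca, ha1]
    have e1 : D3.p1.qs (D2.p2.qs H.aR) = b1 := by rw [← D2.caR, hb1]
    have e3 := congrArg D3.p1.qs (hbt' D2.p2)
    rw [map_sub, map_mul, e1, e0, D3.ct, D3.cR] at e3
    rw [hb2, hbt'', ← ha2, g5, ht2, D3.ct, e3]
    ring
  -- units
  have u0 : IsUnit (x0 - x1) := by
    have := (D1.unit H.x).map (D3.p1.qs.comp D2.p1.qs)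
    rw [hx0, hx1, ← map_sub, ← map_sub]
    exact this
  have u1 : IsUnit (x1 - x2) := by
    rw [hx1, hx2]; exact D3.unit _
  have u2 : IsUnit (x0 - x1 + (x1 - x2)) := by
    have e1 : x0 - x1 + (x1 - x2) = x0 - x2 := by ring
    rw [e1, hx0, hx2]; exact D3.unit _
  -- entropies
  obtain ⟨A, hA⟩ : ∃ A : D3.D.L, A = D3.p1.map (D2.p1.map (D1.p1.map H.L ⊔ D1.p2.map (dg H.x 1))) ⊔
    D3.p2.map (dg H.x 1) := ⟨_, rfl⟩
  have n1 : 1 ≤ h (dg t1 1) A := by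
    have e1 : I (D3.p2.map (dg H.x 1)) (D3.p1.map (D2.p1.map (D1.p1.map (H.L ⊔ dg H.t 1) ⊔ D1.p2.map (dg H.x 1)))) ⊥
        = 0 := D3.dir _
    rw [D1.p1.map_sup, D2.p1.map_sup, D2.p1.map_sup, D3.p1.map_sup, D3.p1.map_sup] at e1
    rw [hA, ht1, D3.p1.qs_dg, D2.p1.qs_dg, D1.p1.qs_dg]
    have e2 : I (D3.p1.map (D2.p1.map (D1.p1.map (dg H.t 1)))) (D3.p2.map (dg H.x 1))
        (D3.p1.map (D2.p1.map (D1.p1.map H.L ⊔ D1.p2.map (dg H.x 1)))) = 0 := by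
      rw [D2.p1.map_sup, D3.p1.map_sup]
      exact ind_symm (ind_of e1 bot_le (by order) le_sup_left (by order))
    rw [I_zero_iff_h, sup_comm] at e2
    rw [e2, D3.p1.h_map, D2.p1.h_map]
    have e3 := D1.dir (H.L ⊔ dg H.t 1)
    rw [D1.p1.map_sup] at e3
    have e4 : I (D1.p1.map (dg H.t 1)) (D1.p2.map (dg H.x 1)) (D1.p1.map H.L) = 0 :=
      ind_symm (ind_of e3 bot_le (by order) le_sup_left (by order))
    rw [I_zero_iff_h, sup_comm] at e4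
    rw [e4, D1.p1.h_map, ht]
  have n2 : 1 ≤ h (dg t2 1) (A ⊔ dg t1 1) := by
    have e1 : I (D3.p2.map (dg H.x 1)) (D3.p1.map (D2.p1.map (D1.p1.map H.L ⊔ D1.p2.map (dg H.x 1) ⊔
        D1.p1.map (dg H.t 1)) ⊔ D2.p2.map (dg H.t 1))) ⊥ = 0 := D3.dir _
    rw [D3.p1.map_sup] at e1
    have e2 : I (D3.p1.map (D2.p2.map (dg H.t 1))) (D3.p2.map (dg H.x 1))
        (D3.p1.map (D2.p1.map (D1.p1.map H.L ⊔ D1.p2.map (dg H.x 1) ⊔ D1.p1.map (dg H.t 1)))) = 0 :=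
      ind_symm (ind_of e1 bot_le (by order) le_sup_left (by order))
    rw [I_zero_iff_h] at e2
    have e3 := D2.real (D1.p1.map H.L ⊔ D1.p2.map (dg H.x 1) ⊔ D1.p1.map (dg H.t 1))
    rw [← D3.p1.h_map, ← e2] at e3
    rw [ht2, ht1, D3.p1.qs_dg, D3.p1.qs_dg, D2.p2.qs_dg, D2.p1.qs_dg, D1.p1.qs_dg, hA]
    refine e3.trans (h_anti ?_)
    rw [D2.p1.map_sup (D1.p1.map H.L ⊔ D1.p2.map (dg H.x 1)), D3.p1.map_sup (D2.p1.map _)]
    order
  have u3 : IsUnit (t1 - t2) := by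
    have e1 : h (dg t2 1) (dg t1 1) = 1 :=
      le_antisymm (h_dg_le_one _ _) (n2.trans (h_anti le_sup_right))
    have e2 := isUnit_sub e1
    have e3 : t1 - t2 = -(t2 - t1) := by ring
    rw [e3]
    exact e2.neg
  -- the heights are known to the last line
  obtain ⟨K, hK⟩ : ∃ K : D3.D.L, K = dg a2 1 ⊔ dg b2 1 ⊔ A := ⟨_, rfl⟩
  have k0 : dg x0 1 ≤ A := by
    rw [hA, hx0, D3.p1.qs_dg, D2.p1.qs_dg, D1.p1.qs_dg]
    exact (D3.p1.map_mono (D2.p1.map_mono ((D1.p1.map_mono H.x_le_L).trans le_sup_left))).trans le_sup_left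
  have k1 : dg x1 1 ≤ A := by
    rw [hA, hx1, D3.p1.qs_dg, D2.p1.qs_dg, D1.p2.qs_dg]
    exact (D3.p1.map_mono (D2.p1.map_mono le_sup_right)).trans le_sup_left
  have k2 : dg x2 1 ≤ A := by
    rw [hA, hx2, D3.p2.qs_dg]; exact le_sup_right
  have k3 : dg a0 1 ≤ A := by
    rw [hA, ha0, D3.p1.qs_dg, D2.p1.qs_dg, D1.p1.qs_dg]
    exact (D3.p1.map_mono (D2.p1.map_mono ((D1.p1.map_mono (show dg H.a 1 ≤ H.L by unfold HD.L; order)).trans
      le_sup_left))).trans le_sup_left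
  have k4 : dg b0 1 ≤ A := by
    rw [hA, hb0, D3.p1.qs_dg, D2.p1.qs_dg, D1.p1.qs_dg]
    exact (D3.p1.map_mono (D2.p1.map_mono ((D1.p1.map_mono (show dg H.aR 1 ≤ H.L by unfold HD.L; order)).trans
      le_sup_left))).trans le_sup_left
  have hAK : A ≤ K := by rw [hK]; exact le_sup_right
  have k5 : dg a2 1 ≤ K := by rw [hK]; exact le_sup_left.trans le_sup_left
  have k6 : dg b2 1 ≤ K := by rw [hK]; exact le_sup_right.trans le_sup_left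
  have key := two_heights t1 t2 (x0 - x1) (x1 - x2) (a2 - a0) (b0 - b2) K u0 u1 u2 u3 (by rw [g5, g3]; ring)
    (by rw [g6, g4]; ring) (dg_sub_le' _ _ le_rfl (k0.trans hAK) (k1.trans hAK))
    (dg_sub_le' _ _ le_rfl (k1.trans hAK) (k2.trans hAK)) (dg_sub_le' _ _ le_rfl k5 (k3.trans hAK))
    (dg_sub_le' _ _ le_rfl (k4.trans hAK) k6)
  -- the last line is full over the start
  have m1 : 2 ≤ h (dg a2 1 ⊔ dg b2 1) A := by
    have e1 := h_chain (dg t1 1) (dg t2 1) A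
    have e2 : h (dg t2 1) (dg t1 1 ⊔ A) = h (dg t2 1) (A ⊔ dg t1 1) := by rw [sup_comm]
    rw [e2] at e1
    calc 2 ≤ h (dg t1 1 ⊔ dg t2 1) A := by linarith
      _ ≤ h K A := h_mono key
      _ = h (dg a2 1 ⊔ dg b2 1) A := by rw [hK]; exact h_sup_right_of_le le_rfl
  have v1 : D3.p2.map (io V) ≤ A := by
    have e1 := D1.cV
    rw [hm] at e1
    rw [← D3.cV, ← D2.cV, ← e1, hA]
    exact (D3.p1.map_mono (D2.p1.map_mono ((D1.p1.map_mono hL).trans le_sup_left))).trans le_sup_left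
  rw [← D3.p2.h_map, D3.p2.map_sup, D3.p2.map_sup, ← D3.p2.qs_dg, ← D3.p2.qs_dg, ← ha2, ← hb2]
  refine m1.trans (h_anti (sup_le ?_ v1))
  rw [hA]; exact le_sup_right

theorem M_le3 : h H.M ⊥ ≤ 3 := by
  have e1 := h_chain (dg H.t 1 ⊔ dg H.y 1) (dg H.R 1) (⊥ : S.L)
  have e2 := h_chain (dg H.t 1) (dg H.y 1) (⊥ : S.L)
  have e3 := h_dg_le_one H.t (⊥ : S.L)
  have e4 := h_dg_le_one H.y (dg H.t 1 ⊔ ⊥)
  have e5 := h_dg_le_one H.R (dg H.t 1 ⊔ dg H.y 1 ⊔ ⊥)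
  have e6 : H.M = dg H.t 1 ⊔ dg H.y 1 ⊔ dg H.R 1 := rfl
  rw [e6]
  linarith

/-- the line and the height are known to the point and the direction -/
theorem taR_le : dg H.a 1 ⊔ dg H.aR 1 ⊔ dg H.t 1 ≤ H.M ⊔ dg H.x 1 := by
  have f1 : dg H.a 1 ≤ H.M ⊔ dg H.x 1 := by
    unfold HD.a
    exact dg_sub_le' _ _ le_rfl (H.y_le_M.trans le_sup_left)
      (dg_mul_le' _ _ le_rfl (H.t_le_M.trans le_sup_left) le_sup_right)
  have f2 : dg H.aR 1 ≤ H.M ⊔ dg H.x 1 := by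
    unfold HD.aR
    exact dg_sub_le' _ _ le_rfl (H.R_le_M.trans le_sup_left)
      (dg_mul_le' _ _ le_rfl (H.t_le_M.trans le_sup_left) f1)
  have f3 := H.t_le_M
  order

/-- **LEMMA MB at a fresh time**: `p1`, `p2` two points of one line, the second height is real over everything at the
first one; `X` a label which leaves the line full over its direction -/
theorem mb_fresh {X : S.L} (hX : 2 ≤ h (dg H.a 1 ⊔ dg H.aR 1) (dg H.x 1 ⊔ X)) {D : Sp} (p1 p2 : Pj D S)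
    (cx : p1.qs H.x = p2.qs H.x) (ca : p1.qs H.a = p2.qs H.a) (cR : p1.qs H.aR = p2.qs H.aR)
    (ht : ∀ Y : S.L, 1 ≤ h (p2.map (dg H.t 1)) (p1.map Y)) : I (p1.map X) (p2.map H.M) ⊥ = 0 := by
  have ex : p2.map (dg H.x 1) = p1.map (dg H.x 1) := by rw [← p2.qs_dg, ← p1.qs_dg, cx]
  have ea : p2.map (dg H.a 1) = p1.map (dg H.a 1) := by rw [← p2.qs_dg, ← p1.qs_dg, ca]
  have eR : p2.map (dg H.aR 1) = p1.map (dg H.aR 1) := by rw [← p2.qs_dg, ← p1.qs_dg, cR]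
  have m1 : 2 ≤ h (p2.map (dg H.a 1 ⊔ dg H.aR 1)) (p2.map (dg H.x 1) ⊔ p1.map X) := by
    rw [p2.map_sup, ea, eR, ex, ← p1.map_sup, ← p1.map_sup, p1.h_map]
    exact hX
  have m2 : 1 ≤ h (p2.map (dg H.t 1)) (p2.map (dg H.a 1 ⊔ dg H.aR 1) ⊔ (p2.map (dg H.x 1) ⊔ p1.map X)) := by
    rw [p2.map_sup, ea, eR, ex, ← p1.map_sup, ← p1.map_sup, ← p1.map_sup]
    exact ht _
  have m3 := h_chain (p2.map (dg H.a 1 ⊔ dg H.aR 1)) (p2.map (dg H.t 1)) (p2.map (dg H.x 1) ⊔ p1.map X)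
  have m4 : p2.map (dg H.a 1 ⊔ dg H.aR 1) ⊔ p2.map (dg H.t 1) ≤ p2.map H.M ⊔ (p2.map (dg H.x 1) ⊔ p1.map X) := by
    have := p2.map_mono (taR_le (H := H))
    rw [p2.map_sup, p2.map_sup H.M] at this
    order
  have m5 : 3 ≤ h (p2.map H.M) (p2.map (dg H.x 1) ⊔ p1.map X) := by
    calc 3 ≤ h (p2.map (dg H.a 1 ⊔ dg H.aR 1) ⊔ p2.map (dg H.t 1)) (p2.map (dg H.x 1) ⊔ p1.map X) := by linarith
      _ ≤ h (p2.map H.M ⊔ (p2.map (dg H.x 1) ⊔ p1.map X)) (p2.map (dg H.x 1) ⊔ p1.map X) := h_mono m4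
      _ = h (p2.map H.M) (p2.map (dg H.x 1) ⊔ p1.map X) := h_sup_right_of_le le_rfl
  have m6 : h (p2.map H.M) ⊥ ≤ 3 := by
    rw [← p2.map_bot, p2.h_map]; exact M_le3
  apply ind_symm
  apply ind_of_h
  rw [sup_bot_eq]
  exact m6.trans (m5.trans (h_anti le_sup_right))

/-- **LEMMA MB.** -/
theorem mb (hV : Bdd V) (hB : io V ≤ H.B) (hL : io V ≤ H.L) (ht : h (dg H.t 1) H.L = 1)
    (hx : I (dg H.x 1) H.B ⊥ = 0)
    (hr : ∀ (T : Sp) (p : Pj T S) (E : ∀ k, (T.F k).Ω → Prop) (hE : 0 < ul (T.pr E)) (r : ℝ), 0 < r → r ≤ 1 →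
      0 < h (restL E hE (p.map (dg H.x r))) (restL E hE (p.map H.B))) : I (io V) H.M ⊥ = 0 := by
  have m2 := mb2 hV hB hL ht hx hr
  -- the point
  have m3 : 3 ≤ h H.M (dg H.x 1 ⊔ io V) := by
    have e1 := h_chain (dg H.a 1 ⊔ dg H.aR 1) (dg H.t 1) (dg H.x 1 ⊔ io V)
    have e2 : 1 ≤ h (dg H.t 1) (dg H.a 1 ⊔ dg H.aR 1 ⊔ (dg H.x 1 ⊔ io V)) := by
      refine ht.ge.trans (h_anti ?_)
      refine sup_le ?_ (sup_le H.x_le_L hL)
      unfold HD.L; order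
    have e3 : dg H.a 1 ⊔ dg H.aR 1 ⊔ dg H.t 1 ≤ H.M ⊔ (dg H.x 1 ⊔ io V) := by
      have f1 : dg H.a 1 ≤ H.M ⊔ dg H.x 1 := by
        unfold HD.a
        exact dg_sub_le' _ _ le_rfl (H.y_le_M.trans le_sup_left)
          (dg_mul_le' _ _ le_rfl (H.t_le_M.trans le_sup_left) le_sup_right)
      have f2 : dg H.aR 1 ≤ H.M ⊔ dg H.x 1 := by
        unfold HD.aR
        exact dg_sub_le' _ _ le_rfl (H.R_le_M.trans le_sup_left)
          (dg_mul_le' _ _ le_rfl (H.t_le_M.trans le_sup_left) f1)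
      have f3 := H.t_le_M
      order
    calc 3 ≤ h (dg H.a 1 ⊔ dg H.aR 1 ⊔ dg H.t 1) (dg H.x 1 ⊔ io V) := by linarith
      _ ≤ h (H.M ⊔ (dg H.x 1 ⊔ io V)) (dg H.x 1 ⊔ io V) := h_mono e3
      _ = h H.M (dg H.x 1 ⊔ io V) := h_sup_right_of_le le_rfl
  apply ind_symm
  apply ind_of_h
  rw [sup_bot_eq]
  exact M_le3.trans (m3.trans (h_anti le_sup_right))

end

end Pool.Agent.Helper82.TP
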