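import Pool.Agent.Helper82.TP.GL
import Pool.Agent.Helper82.TP.MB

/-! The thin parallelogram with lemma MB: the slow label is independent of the point of the Heisenberg group. -/

set_option autoImplicit false

namespace Pool.Agent.Helper82.TP

open Finset Filter Topology Pool.Agent.Helper69.RK Pool.Agent.Helper31.EC Pool.Agent.Helper38.NS

noncomputable section

open Sp QS

variable {S : Sp} {H : HD S}

/-- lemma MB for digits of functions -/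
theorem mb2_dg {N : ℕ} (f : Fin N → QS S) (r : Fin N → ℝ) (hr1 : ∀ i, r i ≤ 1)
    (hB : (Finset.univ.sup fun i => dg (f i) (r i)) ≤ H.B) (hL : (Finset.univ.sup fun i => dg (f i) (r i)) ≤ H.L)
    (ht : h (dg H.t 1) H.L = 1) (hx : I (dg H.x 1) H.B ⊥ = 0)
    (hr : ∀ (T : Sp) (p : Pj T S) (E : ∀ k, (T.F k).Ω → Prop) (hE : 0 < ul (T.pr E)) (r : ℝ), 0 < r → r ≤ 1 →
      0 < h (restL E hE (p.map (dg H.x r))) (restL E hE (p.map H.B))) :
    2 ≤ h (dg H.a 1 ⊔ dg H.aR 1) (dg H.x 1 ⊔ Finset.univ.sup fun i => dg (f i) (r i)) := by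
  classical
  set X : Fin N → ∀ k, (S.F k).Ω → (Fin 1 → ℤ) := fun i => (TR.vec (fun _ : Fin 1 => rep (f i))).cellv (r i) with hX
  have hXb : ∀ i, Bdd (α := fun _ => Fin 1 → ℤ) (X i) := fun i => (TR.vec (fun _ : Fin 1 => rep (f i))).bdd (r i)
  obtain ⟨b1, b2⟩ := bdd_pi X hXb
  have h2 : (fun i => io (α := fun _ => Fin 1 → ℤ) (X i)) = fun i => dg (f i) (r i) := by
    funext i
    have h3 : dg (f i) (r i) = TR.dg (rep (f i)) (r i) := by
      have := dg_mk (rep (f i)) (hr1 i)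
      rwa [mk_rep] at this
    rw [h3]
    rfl
  rw [h2] at b2
  rw [← b2] at hB hL ⊢
  exact mb2 b1 hB hL ht hx hr

/-- lemma MB for lattice elements -/
theorem mb_of {X : S.L} (hL : X ≤ H.L) (ht : h (dg H.t 1) H.L = 1)
    (h2 : 2 ≤ h (dg H.a 1 ⊔ dg H.aR 1) (dg H.x 1 ⊔ X)) : I X H.M ⊥ = 0 := by
  have e1 := h_chain (dg H.a 1 ⊔ dg H.aR 1) (dg H.t 1) (dg H.x 1 ⊔ X)
  have e2 : 1 ≤ h (dg H.t 1) (dg H.a 1 ⊔ dg H.aR 1 ⊔ (dg H.x 1 ⊔ X)) := by
    refine ht.ge.trans (h_anti ?_)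
    refine sup_le ?_ (sup_le H.x_le_L hL)
    unfold HD.L; order
  have e3 : dg H.a 1 ⊔ dg H.aR 1 ⊔ dg H.t 1 ≤ H.M ⊔ (dg H.x 1 ⊔ X) := by
    have := taR_le (H := H)
    order
  have m3 : 3 ≤ h H.M (dg H.x 1 ⊔ X) := by
    calc 3 ≤ h (dg H.a 1 ⊔ dg H.aR 1 ⊔ dg H.t 1) (dg H.x 1 ⊔ X) := by linarith
      _ ≤ h (H.M ⊔ (dg H.x 1 ⊔ X)) (dg H.x 1 ⊔ X) := h_mono e3
      _ = h H.M (dg H.x 1 ⊔ X) := h_sup_right_of_le le_rfl
  apply ind_symm
  apply ind_of_h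
  rw [sup_bot_eq]
  exact M_le3.trans (m3.trans (h_anti le_sup_right))

variable {w ρ σ r1 : ℝ} {Sc : Set ℝ} {z0 k0 k1 c : ℝ → QS S}

/-- digits of the frame of a label -/
def FX (z0 k0 k1 c : ℝ → QS S) (s v : ℝ) : S.L := dg (z0 s) v ⊔ dg (k0 s) v ⊔ dg (k1 s) v ⊔ dg (c s) v

theorem FX_mono {s v v' : ℝ} (h : v' ≤ v) : FX z0 k0 k1 c s v' ≤ FX z0 k0 k1 c s v :=
  sup_le_sup (sup_le_sup (sup_le_sup (dg_mono _ h) (dg_mono _ h)) (dg_mono _ h)) (dg_mono _ h)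

/-- the sheet of a label at one point contains the line at all points -/
theorem HC.sheet (hc : HC H w ρ σ r1 Sc z0 k0 k1 c) {s : ℝ} (hs : s ∈ Sc) {D : Sp} (p1 p2 : Pj D S)
    (cx : p1.qs H.x = p2.qs H.x) (ca : p1.qs H.a = p2.qs H.a) (cR : p1.qs H.aR = p2.qs H.aR)
    (cv : p1.qs H.v = p2.qs H.v) (cz : p1.qs H.az = p2.qs H.az) :
    p2.qs H.z - (p1.qs (z0 s) + p1.qs (k0 s) * p2.qs H.t + p1.qs (k1 s) * p2.qs H.y + p1.qs (c s) * p2.qs H.R) ∈
      Id D (w * s - s) := by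
  have hp := hc.pos s hs
  have h1 := Pj_mem_Id p1 (hc.vel hs)
  have h2 : p1.qs (H.z - (z0 s + k0 s * H.t + k1 s * H.y + c s * H.R)) ∈ Id D (w * s - s) :=
    Id_anti (by linarith) (Pj_mem_Id p1 (hc.frZ s hs))
  have h3 := (Id D (w * s - s)).add_mem h2 ((Id D (w * s - s)).mul_mem_left (p2.qs H.t - p1.qs H.t) h1)
  have hy : ∀ q : Pj D S, q.qs H.y = q.qs H.a + q.qs H.t * q.qs H.x := by
    intro q; unfold HD.a; rw [map_sub, map_mul]; ring
  have hR : ∀ q : Pj D S, q.qs H.R = q.qs H.aR + q.qs H.t * q.qs H.a := by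
    intro q; unfold HD.aR; rw [map_sub, map_mul]; ring
  have hz : ∀ q : Pj D S, q.qs H.z = q.qs H.az + q.qs H.t * q.qs H.v := by
    intro q; unfold HD.az; rw [map_sub, map_mul]; ring
  have e1 : p2.qs H.z - (p1.qs (z0 s) + p1.qs (k0 s) * p2.qs H.t + p1.qs (k1 s) * p2.qs H.y +
      p1.qs (c s) * p2.qs H.R) = p1.qs (H.z - (z0 s + k0 s * H.t + k1 s * H.y + c s * H.R)) +
      (p2.qs H.t - p1.qs H.t) * p1.qs (H.v - (k0 s + k1 s * H.x + c s * H.a)) := by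
    simp only [map_sub, map_add, map_mul, hy, hR, hz, ← cx, ← ca, ← cR, ← cv, ← cz]
    ring
  rw [e1]
  exact h3

/-- THE OUTPUT: a label `X` (first digits of a linear frame) which is known to the point and to the line, independent
of the point of the Heisenberg group, at the point itself and at a fresh point of the line; its sheet knows `z` there to
a positive precision. The scale `s2` and the precision `v` depend only on the numbers. -/
theorem HC.goal2 (hc : HC H w ρ σ r1 Sc z0 k0 k1 c) {η s s2 v : ℝ} (hη : 0 < η) (hmm : Mesh Sc σ η)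
    (hS : Scl w σ r1 Sc η s s2 v) :
    FX z0 k0 k1 c s2 v ≤ H.B ∧ FX z0 k0 k1 c s2 v ≤ H.L ∧ I (FX z0 k0 k1 c s2 v) H.M ⊥ = 0 ∧
    H.z - (z0 s2 + k0 s2 * H.t + k1 s2 * H.y + c s2 * H.R) ∈ Id S v ∧
    ∀ (D : Sp) (p1 p2 : Pj D S), p1.qs H.x = p2.qs H.x → p1.qs H.a = p2.qs H.a → p1.qs H.aR = p2.qs H.aR →
      p1.qs H.v = p2.qs H.v → p1.qs H.az = p2.qs H.az → (∀ Y : S.L, 1 ≤ h (p2.map (dg H.t 1)) (p1.map Y)) →
      I (p1.map (FX z0 k0 k1 c s2 v)) (p2.map H.M) ⊥ = 0 ∧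
      p2.qs H.z - (p1.qs (z0 s2) + p1.qs (k0 s2) * p2.qs H.t + p1.qs (k1 s2) * p2.qs H.y +
        p1.qs (c s2) * p2.qs H.R) ∈ Id D v := by
  obtain ⟨e5, e6⟩ := hc.goal hη hmm hS
  obtain ⟨hs, hs2, g4, hwr, hv0, hv1, hv2, hv3, hvr⟩ := hS
  have hp := hc.pos s2 hs2
  have hw := hc.hw
  have hs21 := hc.s_lt hs2
  have hle : v ≤ w * s2 - s2 := by nlinarith
  have hv' : v ≤ 1 := by linarith
  have e5 : FX z0 k0 k1 c s2 v ≤ H.B := e5
  have e6 : FX z0 k0 k1 c s2 v ≤ H.L := e6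
  have hx : I (dg H.x 1) H.B ⊥ = 0 := I_zero_mono (hc.T1 s2 hs2) le_sup_left (by order)
  have e7 : (Finset.univ.sup fun i => dg (![z0 s2, k0 s2, k1 s2, c s2] i) ((fun _ => v : Fin 4 → ℝ) i)) =
      FX z0 k0 k1 c s2 v := by
    apply le_antisymm
    · rw [sup_fin_le]
      intro i
      unfold FX
      fin_cases i
      · exact le_sup_left.trans (le_sup_left.trans le_sup_left)
      · exact le_sup_right.trans (le_sup_left.trans le_sup_left)
      · exact le_sup_right.trans le_sup_left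
      · exact le_sup_right
    · have g := (sup_fin_le (fun i => dg (![z0 s2, k0 s2, k1 s2, c s2] i) ((fun _ => v : Fin 4 → ℝ) i)) _).mp le_rfl
      exact sup_le (sup_le (sup_le (g 0) (g 1)) (g 2)) (g 3)
  have e8 := mb2_dg (H := H) ![z0 s2, k0 s2, k1 s2, c s2] (fun _ => v) (fun _ => hv')
    (by rw [e7]; exact e5) (by rw [e7]; exact e6) hc.time hx hc.rich
  rw [e7] at e8
  refine ⟨e5, e6, mb_of e6 hc.time e8, Id_anti (by linarith) (hc.frZ s2 hs2), ?_⟩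
  intro D p1 p2 cx ca cR cv cz ht
  exact ⟨mb_fresh e8 p1 p2 cx ca cR ht, Id_anti hle (hc.sheet hs2 p1 p2 cx ca cR cv cz)⟩

end

end Pool.Agent.Helper82.TP
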