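import Pool.Agent.Helper82.TP.Base

/-! The corner `d = 1`, `m = 3` over the real Heisenberg group: coordinates `t`, `y`, `R`, `z`; lines of direction `x`,
`y' = x`, `R' = y - t x` (a function of the base line), `z' = v`; labels `K s` of the windows `s`. The base of the space
is the label of the window `0`. -/

set_option autoImplicit false

namespace Pool.Agent.Helper82.TP

open Finset Filter Topology Pool.Agent.Helper69.RK Pool.Agent.Helper31.EC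

noncomputable section

open Sp QS

/-- data of the corner -/
structure HD (S : Sp) where
  t : QS S
  x : QS S
  y : QS S
  R : QS S
  z : QS S
  v : QS S
  β : ℝ → ℕ → Type
  K : ∀ s : ℝ, ∀ k, (S.F k).Ω → β s k

namespace HD

variable {S : Sp} (H : HD S)

/-- intercept of the base line, velocity of `R` -/
def a : QS S := H.y - H.t * H.x
/-- intercept of `R` -/
def aR : QS S := H.R - H.t * H.a
/-- intercept of `z` -/
def az : QS S := H.z - H.t * H.v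

/-- information of the label -/
def κ (s : ℝ) : S.L := io (H.K s)
/-- the base point -/
def q : S.L := dg H.t 1 ⊔ dg H.y 1
/-- the point of the Heisenberg group -/
def M : S.L := dg H.t 1 ⊔ dg H.y 1 ⊔ dg H.R 1
/-- the point -/
def B : S.L := dg H.t 1 ⊔ dg H.y 1 ⊔ dg H.R 1 ⊔ dg H.z 1
/-- the line -/
def L : S.L := dg H.x 1 ⊔ dg H.a 1 ⊔ dg H.aR 1 ⊔ (dg H.v 1 ⊔ dg H.az 1)
/-- isotropic digits of the point of the Heisenberg group -/
def iso (r : ℝ) : S.L := dg H.t r ⊔ dg H.y r ⊔ dg H.R r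

end HD

/-- the scales meet every interval of length larger than `η` -/
def Mesh (Sc : Set ℝ) (σ η : ℝ) : Prop := ∀ a b, 0 < a → a + η < b → b ≤ σ → ∃ s ∈ Sc, a < s ∧ s < b

/-- the hypotheses on the corner -/
structure HC {S : Sp} (H : HD S) (w ρ σ r1 : ℝ) (Sc : Set ℝ) (z0 k0 k1 c : ℝ → QS S) : Prop where
  -- the labels
  bdd : ∀ s ∈ Sc, Bdd (H.K s)
  nest : ∀ s ∈ Sc, ∀ s' ∈ Sc, s ≤ s' → ∀ᶠ k in UF, ∀ ω ω', (S.F k).μ ω ≠ 0 → (S.F k).μ ω' ≠ 0 → (S.F k).Z ω ω' →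
    H.K s' k ω = H.K s' k ω' → H.K s k ω = H.K s k ω'
  pos : ∀ s ∈ Sc, 0 < s
  le : ∀ s ∈ Sc, s ≤ σ
  -- time, leaks, direction
  time : h (dg H.t 1) H.L = 1
  leakA : ∀ s ∈ Sc, I (H.κ s) (dg H.t 1) (H.L ⊔ dg H.t s) = 0
  T1 : ∀ s ∈ Sc, I (dg H.x 1) (H.κ s ⊔ H.B) ⊥ = 0
  rich : ∀ (T : Sp) (p : Pj T S) (E : ∀ k, (T.F k).Ω → Prop) (hE : 0 < ul (T.pr E)) (r : ℝ), 0 < r → r ≤ 1 →
    0 < h (restL E hE (p.map (dg H.x r))) (restL E hE (p.map H.B))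
  -- boxes
  tc : ∀ s ∈ Sc, ∃ t0 : QS S, Lit (H.K s) t0 ∧ H.t - t0 ∈ Id S s ∧ dg t0 1 ≤ dg H.t s
  isoM : ∀ s ∈ Sc, I (H.κ s) H.M (H.iso (2 * s)) = 0
  frR : ∀ s ∈ Sc, ∃ r0 r1 r2 : QS S, Lit (H.K s) r0 ∧ Lit (H.K s) r1 ∧ Lit (H.K s) r2 ∧
    H.R - (r0 + r1 * H.t + r2 * H.y) ∈ Id S (2 * s)
  lz0 : ∀ s ∈ Sc, Lit (H.K s) (z0 s)
  lk0 : ∀ s ∈ Sc, Lit (H.K s) (k0 s)
  lk1 : ∀ s ∈ Sc, Lit (H.K s) (k1 s)
  lc : ∀ s ∈ Sc, Lit (H.K s) (c s)
  frZ : ∀ s ∈ Sc, H.z - (z0 s + k0 s * H.t + k1 s * H.y + c s * H.R) ∈ Id S (w * s)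
  -- `z` is robustly unsaturated over the point of the Heisenberg group
  uns : UnS H.z H.M 0 ρ
  -- the slope of `z` is a function of the point and the direction
  slope : dg H.v r1 ≤ H.M ⊔ dg H.x 1
  -- numbers
  hw : 2 < w
  hρ : 0 < ρ
  hσ : 0 < σ
  hwσ : w * σ ≤ 1
  hr1 : 0 < r1
  hr1' : r1 ≤ 1

end

end Pool.Agent.Helper82.TP
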