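import Pool.Agent.Helper82.TP.TSI

/-! The last step: a label function which takes the same value at two points of a line of the block is known to the
line. -/

set_option autoImplicit false

namespace Pool.Agent.Helper82.TP

open Finset Filter Topology Pool.Agent.Helper69.RK Pool.Agent.Helper31.EC Pool.Agent.Helper38.NS

noncomputable section

open Sp QS Pool.Agent.Helper81.TP

variable {S : Sp} {ν μ κ : Type} [Fintype ν] [Fintype μ] [Fintype κ] {s : TS S ν μ κ}

theorem rct_last {u : ℝ} (hs : s.Hyp u) {w : s.Star} {v : s.Zed w} (g : TS.Rct v) (f : QS S) (hf : dg f 1 ≤ s.iP)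
    (hw : w.p1.qs f = w.p2.qs f) {r : ℝ} (hr : r ≤ 1)
    (h : g.s1.qs (v.q2.qs (w.p1.qs f)) - g.s2.qs (v.q2.qs (w.p1.qs f)) ∈ Id g.D r) : dg f r ≤ s.iL := by
  have hfr : dg f r ≤ s.iP := (dg_mono f hr).trans hf
  -- the digits are known to the line, the direction and the difference of heights
  have h1 : g.s1.map (v.q2.map (w.p1.map (dg f r))) ≤ g.s1.map (v.K' ⊔ v.U ⊔ dg v.tau 1) := by
    apply le_of_ind (g.ci (v.q2.map (w.p1.map (dg f r))) (v.q2.map (w.p1.map (dg f r))))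
    · exact le_sup_left
    · have h2 := dg_eq_of_sub_mem h le_rfl hr
      simp only [Pj.qs_dg] at h2
      rw [h2]
      exact le_sup_left
  have h2 : v.q2.map (w.p1.map (dg f r)) ≤ v.K' ⊔ v.U ⊔ dg v.tau 1 := (map_le_iff g.s1).mp h1
  -- independence
  have i1 : I (v.q2.map (w.p1.map s.iX)) (v.q2.map (w.p2.map s.iL ⊔ w.p1.map s.iP)) ⊥ = 0 := by
    have := v.q2.I_map (w.p1.map s.iX) (w.p2.map s.iL ⊔ w.p1.map s.iP) ⊥
    rw [w.d1' hs, Pj.map_bot] at this
    exact this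
  have i2 : I (dg v.tau 1) (v.q2.map (w.p2.map s.iL ⊔ w.p1.map s.iP)) (v.q2.map (w.p1.map s.iX)) = 0 := by
    apply ind_of_h
    have a1 := v.e2' hs (w.p2.map s.iL ⊔ w.p1.map s.iP ⊔ w.p1.map s.iX)
    rw [v.q2.map_sup] at a1
    exact ((h_le_H _ _).trans (H_dg_of_mem hs.s1 (v.tau_mem hs))).trans a1
  have i3 : I (v.q2.map (w.p2.map s.iL ⊔ w.p1.map s.iP)) (v.U ⊔ dg v.tau 1) ⊥ = 0 :=
    ind_add (ind_symm i1) (ind_symm i2) (by rw [sup_bot_eq]; rfl)
  rw [v.q2.map_sup] at i3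
  have i4 : I (v.q2.map (w.p1.map s.iP)) (v.U ⊔ dg v.tau 1) v.K' = 0 := by
    have i5 : I (v.U ⊔ dg v.tau 1) (v.q2.map (w.p1.map s.iP)) v.K' = 0 :=
      ind_of (ind_symm i3) bot_le (show v.K' ≤ _ by
        have : v.K' = v.q2.map (w.p2.map s.iL) := rfl
        rw [this]; order) le_sup_left (by order)
    exact ind_symm i5
  have h3 : v.q2.map (w.p1.map (dg f r)) ≤ v.K' := by
    apply le_of_ind i4
    · exact (v.q2.map_mono (w.p1.map_mono hfr)).trans le_sup_left
    · order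
  have h4 : w.p1.map (dg f r) = w.p2.map (dg f r) := by
    rw [← w.p1.qs_dg, ← w.p2.qs_dg, hw]
  have h5 : v.q2.map (w.p2.map (dg f r)) ≤ v.q2.map (w.p2.map s.iL) := by rw [← h4]; exact h3
  exact (map_le_iff w.p2).mp ((map_le_iff v.q2).mp h5)

end

end Pool.Agent.Helper82.TP
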