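import Pool.Agent.Helper82.TP.WF

/-! A unit is known up to finitely many values if its square is. -/

set_option autoImplicit false

namespace Pool.Agent.Helper82.TP

open Finset Filter Topology Pool.Agent.Helper69.RK Pool.Agent.Helper31.EC Pool.Agent.Helper38.NS

noncomputable section

open Sp QS

theorem sqr_est {a b K d : ℝ} (hK : 0 ≤ K) (ha : 1 ≤ K * a) (hb : 0 ≤ b) (h : |a * a - b * b| ≤ d) :
    |a - b| ≤ K * d := by
  have h1 : (a - b) * (a + b) = a * a - b * b := by ring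
  rw [← h1, abs_mul] at h
  have h2 : 0 < a := by
    by_contra hc
    push Not at hc
    have := mul_nonpos_of_nonneg_of_nonpos hK hc
    linarith
  have h3 : a ≤ |a + b| := by
    rw [abs_of_nonneg (by linarith)]; linarith
  have h4 : |a - b| * a ≤ d := (mul_le_mul_of_nonneg_left h3 (abs_nonneg _)).trans h
  have h5 : |a - b| ≤ |a - b| * (K * a) := le_mul_of_one_le_right (abs_nonneg _) ha
  calc |a - b| ≤ |a - b| * (K * a) := h5
    _ = K * (|a - b| * a) := by ring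
    _ ≤ K * d := mul_le_mul_of_nonneg_left h4 hK

variable {S : Sp}

/-- a positive unit is known if its square is -/
theorem TR_sqr_le (d : TR S) (hd : Nd d) (r : ℝ)
    (hp : ∀ᶠ k in UF, ∀ ω, (S.F k).μ ω ≠ 0 → 0 ≤ TR.ev d k ω) : TR.dg d r ≤ TR.dg (d * d) r := by
  obtain ⟨K, hK, hT⟩ := hd
  apply VV.dg_le_dg _ _ _ _ _ hT K hK
  filter_upwards [hp, hK.1] with k hk hK0 ω ω' a b e e' _ h1
  have h2 : |TR.ev (d * d) k ω - TR.ev (d * d) k ω'| ≤ S.dl r k := h1 0
  rw [TR.ev_mul, TR.ev_mul] at h2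
  intro _
  have e1 : 1 ≤ K k * TR.ev d k ω := by
    have := e
    rwa [abs_of_nonneg (hk ω a)] at this
  exact sqr_est hK0 e1 (hk ω' b) h2

theorem sqr_le_event (D : TR S) (hD : IsUnit (mk D)) {r : ℝ} (hr : r ≤ 1) (E : ∀ k, (S.F k).Ω → Prop)
    (hE : 0 < ul (S.pr E)) (hs : (∀ k ω, E k ω → 0 ≤ TR.ev D k ω) ∨ (∀ k ω, E k ω → TR.ev D k ω ≤ 0)) :
    restL E hE (dg (mk D) r) ≤ restL E hE (dg (mk D * mk D) r) := by
  have hmem := Pool.Agent.Helper25.EC.rest_mem E hE
  have h1 : Nd (TR.rest E D) := by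
    obtain ⟨K2, hK2, h2⟩ := isUnit_mk.mp hD
    exact ⟨K2, hK2, h2.rest E hE⟩
  have hev : ∀ k ω, TR.ev (TR.rest E D) k ω = TR.ev D k ω := fun k ω => rfl
  rw [← QS.rest_dg, ← QS.rest_dg, map_mul, QS.rest_mk, ← map_mul, dg_mk _ hr, dg_mk _ hr]
  rcases hs with hs | hs
  · apply TR_sqr_le _ h1
    filter_upwards [hmem] with k hk ω hω
    rw [hev]
    exact hs k ω (hk ω hω).2
  · have h2 : Nd (-TR.rest E D) := by
      obtain ⟨K2, hK2, h3⟩ := h1
      refine ⟨K2, hK2, h3.mono (Eventually.of_forall fun k ω _ h4 => ?_)⟩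
      rw [TR.ev_neg, abs_neg]
      exact h4
    have h3 := TR_sqr_le (-TR.rest E D) h2 r (by
      filter_upwards [hmem] with k hk ω hω
      rw [TR.ev_neg, hev]
      have := hs k ω (hk ω hω).2
      linarith)
    have h4 : -TR.rest E D * -TR.rest E D = TR.rest E D * TR.rest E D := by ring
    rw [h4] at h3
    have h5 := TR.neg_dg_le (-TR.rest E D) r
    rw [neg_neg] at h5
    exact h5.trans h3

/-- a unit is known if its square is -/
theorem dg_sqr_le (D : QS S) (hD : IsUnit D) {r : ℝ} (hr : r ≤ 1) : dg D r ≤ dg (D * D) r := by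
  obtain ⟨D, rfl⟩ := mk_surj D
  have key : ∀ (E : ∀ k, (S.F k).Ω → Prop) (hE : 0 < ul (S.pr E)),
      (∀ k ω, E k ω → 0 ≤ TR.ev D k ω) ∨ (∀ k ω, E k ω → TR.ev D k ω ≤ 0) →
      h (restL E hE (dg (mk D) r)) (restL E hE (dg (mk D * mk D) r)) = 0 := by
    intro E hE hs
    exact h_zero (sqr_le_event D hD hr E hE hs)
  rw [← h_eq_zero_iff]
  rcases typ_or (fun k ω => 0 ≤ TR.ev D k ω) with h1 | h1
  · rw [← h_restL_typ _ h1]
    exact key _ _ (Or.inl fun k ω h2 => h2)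
  · rcases typ_or (fun k ω => ¬ 0 ≤ TR.ev D k ω) with h2 | h2
    · rw [← h_restL_typ _ h2]
      exact key _ _ (Or.inr fun k ω h3 => (not_le.mp h3).le)
    · have h3 : 0 < ul (S.pr fun k ω => 0 ≤ TR.ev D k ω) := by
        have e1 : (fun k ω => ¬ ¬ 0 ≤ TR.ev D k ω) = fun k ω => 0 ≤ TR.ev D k ω := by
          funext k ω
          exact propext not_not
        rw [e1] at h2
        exact h2
      rw [h_split _ h3 h1, key _ h3 (Or.inl fun k ω h2 => h2), key _ h1 (Or.inr fun k ω h3 => (not_le.mp h3).le)]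
      ring

end

end Pool.Agent.Helper82.TP
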