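import Pool.Agent.Helper82.TP.WH
import Pool.Agent.Helper81.TP.Rct

/-! The block over the corner. -/

set_option autoImplicit false

namespace Pool.Agent.Helper82.TP

open Finset Filter Topology Pool.Agent.Helper69.RK Pool.Agent.Helper31.EC Pool.Agent.Helper38.NS

noncomputable section

open Sp QS Pool.Agent.Helper81.TP

variable {S : Sp} {H : HD S} {w ρ σ r1 : ℝ} {Sc : Set ℝ} {z0 k0 k1 c : ℝ → QS S}

/-- the line with its point and finitely many label functions -/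
def HD.ts (H : HD S) {κ : Type} [Fintype κ] (k : κ → QS S) : TS S (Fin 2) (Fin 3) κ where
  t := H.t
  a := H.a
  x := H.x
  v := ![H.R, H.z]
  l := ![H.aR, H.v, H.az]
  k := k

section

variable {κ : Type} [Fintype κ] (k : κ → QS S)

theorem HD.ts_y : (H.ts k).y = H.y := by
  unfold TS.y HD.ts HD.a
  ring

theorem HD.ts_iK_le {A : S.L} (h : ∀ j, dg (k j) 1 ≤ A) : (H.ts k).iK ≤ A := by
  unfold TS.iK
  rw [vd_le]
  exact h

theorem HD.ts_iL_le : (H.ts k).iL ≤ H.L := by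
  unfold TS.iL
  rw [vd_le]
  rintro (i | i)
  · fin_cases i
    · show dg H.a 1 ≤ H.L
      unfold HD.L; order
    · show dg H.x 1 ≤ H.L
      unfold HD.L; order
  · fin_cases i
    · show dg H.aR 1 ≤ H.L
      unfold HD.L; order
    · show dg H.v 1 ≤ H.L
      unfold HD.L; order
    · show dg H.az 1 ≤ H.L
      unfold HD.L; order

theorem HD.L_le_ts : H.L ≤ (H.ts k).iL := by
  have h1 := fun i => dg_le_vd (H.ts k).fl 1 i
  have h2 : dg H.a 1 ≤ (H.ts k).iL := h1 (Sum.inl 0)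
  have h3 : dg H.x 1 ≤ (H.ts k).iL := h1 (Sum.inl 1)
  have h4 : dg H.aR 1 ≤ (H.ts k).iL := h1 (Sum.inr 0)
  have h5 : dg H.v 1 ≤ (H.ts k).iL := h1 (Sum.inr 1)
  have h6 : dg H.az 1 ≤ (H.ts k).iL := h1 (Sum.inr 2)
  unfold HD.L
  order

theorem HD.ts_iL : (H.ts k).iL = H.L := le_antisymm (H.ts_iL_le k) (H.L_le_ts k)

theorem HD.ts_iP : (H.ts k).iP = H.B ⊔ (H.ts k).iK := by
  apply le_antisymm
  · unfold TS.iP
    rw [vd_le]
    rintro (i | i | i)
    · fin_cases i
      · show dg H.t 1 ≤ _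
        exact (show dg H.t 1 ≤ H.B by unfold HD.B; order).trans le_sup_left
      · show dg (H.ts k).y 1 ≤ _
        rw [HD.ts_y]
        exact (show dg H.y 1 ≤ H.B by unfold HD.B; order).trans le_sup_left
    · fin_cases i
      · show dg H.R 1 ≤ _
        exact (show dg H.R 1 ≤ H.B by unfold HD.B; order).trans le_sup_left
      · show dg H.z 1 ≤ _
        exact (show dg H.z 1 ≤ H.B by unfold HD.B; order).trans le_sup_left
    · exact (dg_le_vd k 1 i).trans le_sup_right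
  · apply sup_le _ (H.ts k).iK_le
    have h1 := fun i => dg_le_vd (H.ts k).fp 1 i
    have h2 : dg H.t 1 ≤ (H.ts k).iP := h1 (Sum.inl 0)
    have h3 : dg H.y 1 ≤ (H.ts k).iP := by
      have := h1 (Sum.inl 1)
      rw [show (H.ts k).fp (Sum.inl 1) = (H.ts k).y from rfl, HD.ts_y] at this
      exact this
    have h4 : dg H.R 1 ≤ (H.ts k).iP := h1 (Sum.inr (Sum.inl 0))
    have h5 : dg H.z 1 ≤ (H.ts k).iP := h1 (Sum.inr (Sum.inl 1))
    unfold HD.B
    order

end

/-- the hypotheses of the block -/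
theorem HC.ts_hyp (hc : HC H w ρ σ r1 Sc z0 k0 k1 c) {s : ℝ} (hs : s ∈ Sc) {κ : Type} [Fintype κ] (k : κ → QS S)
    (hk : ∀ j, Lit (H.K s) (k j)) (ht : ∃ j, H.t - k j ∈ Id S s) : (H.ts k).Hyp s where
  s0 := (hc.pos s hs).le
  s1 := (hc.s_lt hs).le
  h1 := by
    have h1 := hc.ind_x hs
    rw [HD.ts_iP]
    refine I_zero_mono h1 le_sup_left ?_
    have h2 := H.ts_iK_le k (fun j => (hk j).dg_le (hc.bdd s hs) le_rfl)
    have h3 : io (H.K s) = H.κ s := rfl
    rw [h3] at h2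
    order
  h2 := by
    have h1 := hc.time3 hs
    rw [HD.ts_iL]
    have h2 := H.ts_iK_le k (fun j => (hk j).dg_le (hc.bdd s hs) le_rfl)
    have h3 : io (H.K s) = H.κ s := rfl
    rw [h3] at h2
    exact h1.trans (h_anti (by order))
  h3 := by
    rw [HD.ts_iL]
    exact hc.time.ge
  hk := ht

/-- rich directions: two lines of a star have different directions -/
theorem HC.ts_unit (hc : HC H w ρ σ r1 Sc z0 k0 k1 c) {s : ℝ} (hs : s ∈ Sc) {κ : Type} [Fintype κ] (k : κ → QS S)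
    (hk : ∀ j, Lit (H.K s) (k j)) (ht : ∃ j, H.t - k j ∈ Id S s) (w' : (H.ts k).Star) :
    IsUnit (w'.p1.qs H.x - w'.p2.qs H.x) := by
  have hh := hc.ts_hyp hs k hk ht
  have hBP : H.B ≤ (H.ts k).iP := by rw [HD.ts_iP]; exact le_sup_left
  apply isUnit_sub_rich (C := w'.p2.map H.B)
  · rw [w'.p1.qs_dg, w'.p2.qs_dg]
    have h1 : I (w'.p1.map (dg H.x 1)) (w'.p2.map (H.ts k).iL ⊔ w'.p1.map (H.ts k).iP) ⊥ = 0 := w'.d1' hh
    have h2 : w'.p2.map H.B ≤ w'.p1.map (H.ts k).iP := by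
      rw [← w'.eP]
      exact w'.p2.map_mono hBP
    have h3 : w'.p2.map (dg H.x 1) ≤ w'.p2.map (H.ts k).iL := w'.p2.map_mono (H.ts k).iX_le
    exact ind_of h1 bot_le (by order) le_sup_left (by order)
  · intro E hE r h0 h1
    rw [w'.p2.qs_dg]
    exact hc.rich w'.D w'.p2 E hE r h0 h1

end

end Pool.Agent.Helper82.TP
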