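import Pool.Agent.Helper82.TP.SL
import Pool.Agent.Helper38.NS.Sg
import Pool.Agent.Helper38.NS.T3C
import Pool.Agent.Helper31.EC.RobS

/-! Weak functions of the frames of the labels: everything that the block needs, on the space of the corner. -/

set_option autoImplicit false

namespace Pool.Agent.Helper82.TP

open Finset Filter Topology Pool.Agent.Helper69.RK Pool.Agent.Helper31.EC Pool.Agent.Helper38.NS

noncomputable section

open Sp QS

section gen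

/-- common information of conditionally independent informations -/
theorem le_of_ind {L : Type*} [PM L] {A X Y C : L} (h0 : I X Y C = 0) (h1 : A ≤ X ⊔ C) (h2 : A ≤ Y ⊔ C) : A ≤ C := by
  have h3 := I_zero_mono h0 h1 h2
  rw [I_zero_iff_h] at h3
  have h4 : h A (A ⊔ C) = 0 := h_zero le_sup_left
  rw [h4] at h3
  exact h_eq_zero_iff.mp h3.symm

theorem map_le_iff {T S : Sp} (p : Pj T S) {x y : S.L} : p.map x ≤ p.map y ↔ x ≤ y := by
  rw [← h_eq_zero_iff, p.h_map, h_eq_zero_iff]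

/-- rich functions: the difference of two conditionally independent copies is a unit -/
theorem isUnit_sub_rich {D : Sp} {x1 x2 : QS D} {C : D.L} (hI : I (dg x1 1) (dg x2 1) C = 0)
    (hr : ∀ (E : ∀ k, (D.F k).Ω → Prop) (hE : 0 < ul (D.pr E)) (r : ℝ), 0 < r → r ≤ 1 →
      0 < h (restL E hE (dg x2 r)) (restL E hE C)) : IsUnit (x1 - x2) := by
  by_contra hc
  obtain ⟨δ, E, hE, h0, h1, h2⟩ := small_of_not_unit hc
  rw [map_sub] at h2
  have h3 := dg_eq_of_sub_mem h2 le_rfl h1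
  rw [QS.rest_dg, QS.rest_dg] at h3
  have h4 := I_rest_zero E hE hI
  have h5 : I (restL E hE (dg x1 δ)) (restL E hE (dg x2 δ)) (restL E hE C) = 0 :=
    I_zero_mono h4 ((restL_mono E hE (dg_mono x1 h1)).trans le_sup_left)
      ((restL_mono E hE (dg_mono x2 h1)).trans le_sup_left)
  rw [h3] at h5
  have h6 := hr E hE δ h0 h1
  rw [I_zero_iff_h, h_zero (le_sup_left : restL E hE (dg x2 δ) ≤ restL E hE (dg x2 δ) ⊔ restL E hE C)] at h5
  rw [← h5] at h6
  exact lt_irrefl _ h6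

end gen

variable {S : Sp} {H : HD S} {w ρ σ r1 : ℝ} {Sc : Set ℝ} {z0 k0 k1 c : ℝ → QS S}

/-- slope of the frame in the direction `y` -/
def HD.al (H : HD S) (k1 c : ℝ → QS S) (s : ℝ) : QS S := k1 s - c s * H.t
/-- slope of the frame in the direction `t` -/
def HD.be (H : HD S) (k0 c : ℝ → QS S) (s : ℝ) : QS S := k0 s + c s * H.y

namespace HD

variable (H : HD S)

theorem t_le_M : dg H.t 1 ≤ H.M := by unfold M; order
theorem y_le_M : dg H.y 1 ≤ H.M := by unfold M; order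
theorem R_le_M : dg H.R 1 ≤ H.M := by unfold M; order
theorem M_le_B : H.M ≤ H.B := by unfold M B; order
theorem z_le_B : dg H.z 1 ≤ H.B := by unfold B; order
theorem x_le_L : dg H.x 1 ≤ H.L := by unfold L; order
theorem iso_mono {r r' : ℝ} (h : r ≤ r') : H.iso r ≤ H.iso r' := by
  unfold iso
  exact sup_le_sup (sup_le_sup (dg_mono _ h) (dg_mono _ h)) (dg_mono _ h)
theorem iso_le_M {r : ℝ} (h : r ≤ 1) : H.iso r ≤ H.M := H.iso_mono h
theorem t_le_iso (r : ℝ) : dg H.t r ≤ H.iso r := by unfold iso; order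
theorem y_le_iso (r : ℝ) : dg H.y r ≤ H.iso r := by unfold iso; order
theorem R_le_iso (r : ℝ) : dg H.R r ≤ H.iso r := by unfold iso; order

end HD

namespace HC

theorem vel' (hc : HC H w ρ σ r1 Sc z0 k0 k1 c) {s : ℝ} (hs : s ∈ Sc) :
    H.v - (H.be k0 c s + H.al k1 c s * H.x) ∈ Id S (w * s - s) := by
  have h1 := hc.vel hs
  have e1 : H.be k0 c s + H.al k1 c s * H.x = k0 s + k1 s * H.x + c s * H.a := by
    unfold HD.be HD.al HD.a; ring
  rw [e1]
  exact h1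

theorem ind_x (hc : HC H w ρ σ r1 Sc z0 k0 k1 c) {s : ℝ} (hs : s ∈ Sc) : I (dg H.x 1) (H.κ s ⊔ H.B) ⊥ = 0 :=
  hc.T1 s hs

theorem al_le (hc : HC H w ρ σ r1 Sc z0 k0 k1 c) {s : ℝ} (hs : s ∈ Sc) {r : ℝ} (hr : r ≤ 1) :
    dg (H.al k1 c s) r ≤ H.κ s ⊔ H.M := by
  have a1 := (hc.lk1 s hs).dg_le (hc.bdd s hs) hr
  have a2 := (hc.lc s hs).dg_le (hc.bdd s hs) hr
  have a3 := (dg_mono H.t hr).trans H.t_le_M
  unfold HD.al
  refine dg_sub_le' _ _ hr ?_ (dg_mul_le' _ _ hr ?_ ?_)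
  · exact a1.trans le_sup_left
  · exact a2.trans le_sup_left
  · exact a3.trans le_sup_right

theorem be_le (hc : HC H w ρ σ r1 Sc z0 k0 k1 c) {s : ℝ} (hs : s ∈ Sc) {r : ℝ} (hr : r ≤ 1) :
    dg (H.be k0 c s) r ≤ H.κ s ⊔ H.M := by
  have a1 := (hc.lk0 s hs).dg_le (hc.bdd s hs) hr
  have a2 := (hc.lc s hs).dg_le (hc.bdd s hs) hr
  have a3 := (dg_mono H.y hr).trans H.y_le_M
  unfold HD.be
  refine dg_add_le' _ _ hr ?_ (dg_mul_le' _ _ hr ?_ ?_)
  · exact a1.trans le_sup_left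
  · exact a2.trans le_sup_left
  · exact a3.trans le_sup_right

end HC

/-- two lines through one point with one label -/
structure SS (H : HD S) (s : ℝ) where
  D : Sp
  p1 : Pj D S
  p2 : Pj D S
  lit : ∀ g, Lit (H.K s) g → p1.qs g = p2.qs g
  ct : p1.qs H.t = p2.qs H.t
  cy : p1.qs H.y = p2.qs H.y
  cR : p1.qs H.R = p2.qs H.R
  cz : p1.qs H.z = p2.qs H.z
  com : p1.map (H.κ s ⊔ H.B) = p2.map (H.κ s ⊔ H.B)
  ind : ∀ x y, I (p1.map x) (p2.map y) (p1.map (H.κ s ⊔ H.B)) = 0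

theorem exists_SS (hc : HC H w ρ σ r1 Sc z0 k0 k1 c) {s : ℝ} (hs : s ∈ Sc) : Nonempty (SS H s) := by
  obtain ⟨D⟩ := exists_PC hc hs (Pj.id S)
  have hi : ∀ f : QS S, (Pj.id S).qs f = f := fun f => Pj.id_qs f
  have hm : ∀ f : S.L, (Pj.id S).map f = f := fun f => Pj.id_map f
  have a1 := D.lit
  have a2 := D.ct
  have a3 := D.cy
  have a4 := D.cR
  have a5 := D.cz
  have a6 := D.com
  have a7 := D.ind
  simp only [hi] at a1 a2 a3 a4 a5
  simp only [hm] at a6 a7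
  exact ⟨⟨D.D, D.p1, D.p2, a1, a2, a3, a4, a5, a6, a7⟩⟩

namespace SS

variable {s : ℝ} (D : SS H s)

theorem ind_xx (hc : HC H w ρ σ r1 Sc z0 k0 k1 c) (hs : s ∈ Sc) :
    I (D.p1.map (dg H.x 1) ⊔ D.p2.map (dg H.x 1)) (D.p1.map (H.κ s ⊔ H.B)) ⊥ = 0 := by
  have h1 := D.p1.I_map (dg H.x 1) (H.κ s ⊔ H.B) ⊥
  have h2 := D.p2.I_map (dg H.x 1) (H.κ s ⊔ H.B) ⊥
  rw [hc.ind_x hs, Pj.map_bot] at h1 h2
  rw [← D.com] at h2
  have h3 := ind_add h2 (ind_symm (D.ind (dg H.x 1) (dg H.x 1))) (by rw [sup_bot_eq])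
  -- `I x2 (P ⊔ x1) ⊥ = 0`
  have h4 : I (D.p1.map (H.κ s ⊔ H.B)) (D.p2.map (dg H.x 1)) (D.p1.map (dg H.x 1)) = 0 :=
    ind_symm (ind_of h3 bot_le (by order) le_sup_left (by order))
  exact ind_symm (ind_add (ind_symm h1) h4 (by rw [sup_bot_eq]))

theorem unit (hc : HC H w ρ σ r1 Sc z0 k0 k1 c) (hs : s ∈ Sc) : IsUnit (D.p1.qs H.x - D.p2.qs H.x) := by
  apply isUnit_sub_rich (C := D.p2.map H.B)
  · rw [D.p1.qs_dg, D.p2.qs_dg]
    -- `x1` is independent of `x2` and of the point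
    have h1 := D.ind_xx hc hs
    have h2 : D.p2.map H.B ≤ D.p1.map (H.κ s ⊔ H.B) := by
      rw [D.com]
      exact D.p2.map_mono le_sup_right
    have h3 : I (D.p1.map (dg H.x 1)) (D.p2.map (dg H.x 1)) ⊥ = 0 := by
      have h4 := D.p1.I_map (dg H.x 1) (H.κ s ⊔ H.B) ⊥
      rw [hc.ind_x hs, Pj.map_bot] at h4
      have h5 := ind_add h4 (D.ind (dg H.x 1) (dg H.x 1)) (by rw [sup_bot_eq])
      exact I_zero_mono h5 le_sup_left (by order)
    have h4 : I (D.p1.map (dg H.x 1)) (D.p2.map (dg H.x 1) ⊔ D.p2.map H.B) ⊥ = 0 := by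
      have h6 : I (D.p1.map (dg H.x 1)) (D.p2.map H.B) (D.p2.map (dg H.x 1)) = 0 :=
        ind_symm (ind_of (ind_symm h1) bot_le (by order) (by order) (by order))
      exact ind_add h3 h6 (by rw [sup_bot_eq])
    exact ind_of h4 bot_le (by order) le_sup_left (by order)
  · intro E hE r h0 h1
    rw [D.p2.qs_dg]
    exact hc.rich D.D D.p2 E hE r h0 h1

end SS

end

end Pool.Agent.Helper82.TP
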