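import Pool.Agent.Helper82.TP.WF

/-! Frames of different labels agree; the first digits of the frames are functions of the point of the Heisenberg
group. -/

set_option autoImplicit false

namespace Pool.Agent.Helper82.TP

open Finset Filter Topology Pool.Agent.Helper69.RK Pool.Agent.Helper31.EC Pool.Agent.Helper38.NS

noncomputable section

open Sp QS

variable {S : Sp} {H : HD S} {w ρ σ r1 : ℝ} {Sc : Set ℝ} {z0 k0 k1 c : ℝ → QS S}

namespace HC

/-- slopes of the frames of two labels -/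
theorem al_sub (hc : HC H w ρ σ r1 Sc z0 k0 k1 c) {s s' : ℝ} (hs : s ∈ Sc) (hs' : s' ∈ Sc) (h : s ≤ s') :
    H.al k1 c s' - H.al k1 c s ∈ Id S (w * s - s) := by
  obtain ⟨D⟩ := exists_SS hc hs'
  have hw := hc.hw
  have hp := hc.pos s hs
  have hws := hc.ws_le hs
  have e1 := hc.vel' hs
  have e2 : H.v - (H.be k0 c s' + H.al k1 c s' * H.x) ∈ Id S (w * s - s) := by
    refine Id_anti ?_ (hc.vel' hs')
    nlinarith
  have e3 := (Id S (w * s - s)).sub_mem e1 e2
  have f1 := Pj_mem_Id D.p1 e3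
  have f2 := Pj_mem_Id D.p2 e3
  have f3 := (Id D.D (w * s - s)).sub_mem f1 f2
  have l1 := D.lit _ (hc.lk1 s' hs')
  have l2 := D.lit _ (hc.lit_mono hs hs' h (hc.lk1 s hs))
  have l3 := D.lit _ (hc.lc s' hs')
  have l4 := D.lit _ (hc.lit_mono hs hs' h (hc.lc s hs))
  have l5 := D.lit _ (hc.lk0 s' hs')
  have l6 := D.lit _ (hc.lit_mono hs hs' h (hc.lk0 s hs))
  have l7 := D.ct
  have l8 := D.cy
  have f4 : (D.p1.qs H.x - D.p2.qs H.x) * D.p1.qs (H.al k1 c s' - H.al k1 c s) ∈ Id D.D (w * s - s) := by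
    have e5 : (D.p1.qs H.x - D.p2.qs H.x) * D.p1.qs (H.al k1 c s' - H.al k1 c s) =
        D.p1.qs (H.v - (H.be k0 c s + H.al k1 c s * H.x) - (H.v - (H.be k0 c s' + H.al k1 c s' * H.x))) -
          D.p2.qs (H.v - (H.be k0 c s + H.al k1 c s * H.x) - (H.v - (H.be k0 c s' + H.al k1 c s' * H.x))) := by
      unfold HD.be HD.al
      simp only [map_sub, map_add, map_mul, ← l1, ← l2, ← l3, ← l4, ← l5, ← l6, ← l7, ← l8]
      ring
    rw [e5]
    exact f3
  have f5 := mem_Id_of_unit_mul (D.unit hc hs') f4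
  exact (Pj.qs_mem_Id D.p1 (by linarith)).mp f5

/-- `c` at two labels, first step -/
theorem c_sub0 (hc : HC H w ρ σ r1 Sc z0 k0 k1 c) {s s' : ℝ} (hs : s ∈ Sc) (hs' : s' ∈ Sc) (h : s ≤ s') :
    c s' - c s ∈ Id S (w * s - s - s') := by
  obtain ⟨D⟩ := exists_LC hc hs' (Pj.id S)
  have hi : ∀ f : QS S, (Pj.id S).qs f = f := fun f => Pj.id_qs f
  have hp := hc.pos s hs
  have hp' := hc.pos s' hs'
  have hs1 := hc.s_lt hs'
  have hws := hc.ws_le hs
  have f1 := Pj_mem_Id D.p1 (hc.al_sub hs hs' h)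
  have f2 := Pj_mem_Id D.p2 (hc.al_sub hs hs' h)
  have f3 := (Id D.D (w * s - s)).sub_mem f1 f2
  have l1 := D.lit _ (hc.lk1 s' hs')
  have l2 := D.lit _ (hc.lit_mono hs hs' h (hc.lk1 s hs))
  have l3 := D.lit _ (hc.lc s' hs')
  have l4 := D.lit _ (hc.lit_mono hs hs' h (hc.lc s hs))
  rw [hi] at l1 l2 l3 l4
  have f4 : (D.p2.qs H.t - D.p1.qs ((Pj.id S).qs H.t)) * D.p1.qs (c s' - c s) ∈ Id D.D (w * s - s) := by
    have e5 : (D.p2.qs H.t - D.p1.qs ((Pj.id S).qs H.t)) * D.p1.qs (c s' - c s) =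
        D.p1.qs (H.al k1 c s' - H.al k1 c s) - D.p2.qs (H.al k1 c s' - H.al k1 c s) := by
      rw [hi]
      unfold HD.al
      simp only [map_sub, map_mul, ← l1, ← l2, ← l3, ← l4]
      ring
    rw [e5]
    exact f3
  have f5 := div_small hs1.le D.small (D.real ⊥) (by linarith) f4
  exact (Pj.qs_mem_Id D.p1 (by linarith)).mp f5

/-- `c` at two labels: the error does not depend on the larger window -/
theorem c_sub (hc : HC H w ρ σ r1 Sc z0 k0 k1 c) {η : ℝ} (hη : 0 < η) (hm : Mesh Sc σ η) {s s' : ℝ} (hs : s ∈ Sc)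
    (hs' : s' ∈ Sc) (h : s ≤ s') : c s' - c s ∈ Id S (w * s - 2 * s - 3 * η) := by
  have hw := hc.hw
  have key : ∀ N : ℕ, ∀ s s' : ℝ, s ∈ Sc → s' ∈ Sc → s ≤ s' → s' - s ≤ N * η →
      c s' - c s ∈ Id S (w * s - 2 * s - 3 * η) := by
    intro N
    induction N with
    | zero =>
      intro s s' hs hs' h hN
      have h1 := hc.c_sub0 hs hs' h
      refine Id_anti ?_ h1
      rw [Nat.cast_zero, zero_mul] at hN
      linarith
    | succ N ih =>
      intro s s' hs hs' h hN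
      by_cases h1 : s' - s ≤ 3 * η
      · refine Id_anti ?_ (hc.c_sub0 hs hs' h)
        linarith
      · push Not at h1
        obtain ⟨s1, g1, g2, g3⟩ := hm (s + η) (s + 3 * η) (by have := hc.pos s hs; linarith) (by linarith)
          (by have := hc.le s' hs'; linarith)
        have h2 := ih s1 s' g1 hs' (by linarith) (by
          push_cast at hN
          linarith)
        have h3 := hc.c_sub0 hs g1 (by linarith)
        have h4 : c s' - c s1 ∈ Id S (w * s - 2 * s - 3 * η) := by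
          refine Id_anti ?_ h2
          nlinarith
        have h5 : c s1 - c s ∈ Id S (w * s - 2 * s - 3 * η) := by
          refine Id_anti ?_ h3
          linarith
        have h6 := (Id S (w * s - 2 * s - 3 * η)).add_mem h4 h5
        have h7 : c s' - c s1 + (c s1 - c s) = c s' - c s := by ring
        rwa [h7] at h6
  obtain ⟨N, hN⟩ := exists_nat_ge ((s' - s) / η)
  apply key N s s' hs hs' h
  rwa [div_le_iff₀ hη] at hN

/-- the label, the directions and the point -/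
theorem al_M (hc : HC H w ρ σ r1 Sc z0 k0 k1 c) {s : ℝ} (hs : s ∈ Sc) {r : ℝ} (h1 : r ≤ r1) (h2 : r ≤ w * s - s) :
    dg (H.al k1 c s) r ≤ H.M ∧ dg (H.be k0 c s) r ≤ H.M := by
  obtain ⟨D⟩ := exists_SS hc hs
  have hw := hc.hw
  have hp := hc.pos s hs
  have hws := hc.ws_le hs
  have hr : r ≤ 1 := h1.trans hc.hr1'
  have f1 := Pj_mem_Id D.p1 (hc.vel' hs)
  have f2 := Pj_mem_Id D.p2 (hc.vel' hs)
  have l1 := D.lit _ (hc.lk1 s hs)
  have l3 := D.lit _ (hc.lc s hs)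
  have l5 := D.lit _ (hc.lk0 s hs)
  have l7 := D.ct
  have l8 := D.cy
  have ea : D.p2.qs (H.al k1 c s) = D.p1.qs (H.al k1 c s) := by
    unfold HD.al
    simp only [map_sub, map_mul, ← l1, ← l3, ← l7]
  have eb : D.p2.qs (H.be k0 c s) = D.p1.qs (H.be k0 c s) := by
    unfold HD.be
    simp only [map_add, map_mul, ← l5, ← l3, ← l8]
  -- information
  obtain ⟨X, hX⟩ : ∃ X : D.D.L, X = D.p1.map (dg H.x 1) ⊔ D.p2.map (dg H.x 1) := ⟨_, rfl⟩
  have hM2 : D.p2.map H.M = D.p1.map H.M := by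
    unfold HD.M
    simp only [Pj.map_sup, ← Pj.qs_dg, ← D.ct, ← D.cy, ← D.cR]
  have hv1 : dg (D.p1.qs H.v) r ≤ D.p1.map H.M ⊔ X := by
    rw [D.p1.qs_dg]
    have := D.p1.map_mono ((dg_mono H.v h1).trans hc.slope)
    rw [Pj.map_sup] at this
    refine this.trans (sup_le_sup_left ?_ _)
    rw [hX]; exact le_sup_left
  have hv2 : dg (D.p2.qs H.v) r ≤ D.p1.map H.M ⊔ X := by
    rw [D.p2.qs_dg]
    have := D.p2.map_mono ((dg_mono H.v h1).trans hc.slope)
    rw [Pj.map_sup, hM2] at this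
    refine this.trans (sup_le_sup_left ?_ _)
    rw [hX]; exact le_sup_right
  have hx1 : dg (D.p1.qs H.x) r ≤ D.p1.map H.M ⊔ X := by
    rw [D.p1.qs_dg, hX]
    exact (D.p1.map_mono (dg_mono H.x hr)).trans (le_sup_left.trans le_sup_right)
  have hx2 : dg (D.p2.qs H.x) r ≤ D.p1.map H.M ⊔ X := by
    rw [D.p2.qs_dg, hX]
    exact (D.p2.map_mono (dg_mono H.x hr)).trans (le_sup_right.trans le_sup_right)
  obtain ⟨u, hu⟩ := D.unit hc hs
  have hinv : (↑u⁻¹ : QS D.D) * (D.p1.qs H.x - D.p2.qs H.x) = 1 := by rw [← hu]; exact u.inv_mul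
  have hdi : dg (↑u⁻¹ : QS D.D) r ≤ D.p1.map H.M ⊔ X :=
    (dg_inv_le hinv hr).trans (dg_sub_le' _ _ hr hx1 hx2)
  have ha : dg (D.p1.qs (H.al k1 c s)) r ≤ D.p1.map H.M ⊔ X := by
    have e1 : D.p1.qs (H.al k1 c s) - ↑u⁻¹ * (D.p1.qs H.v - D.p2.qs H.v) ∈ Id D.D (w * s - s) := by
      have e2 := (Id D.D (w * s - s)).mul_mem_left (↑u⁻¹ : QS D.D) ((Id D.D (w * s - s)).sub_mem f2 f1)
      have e3 : D.p1.qs (H.al k1 c s) - ↑u⁻¹ * (D.p1.qs H.v - D.p2.qs H.v) =
          ↑u⁻¹ * (D.p2.qs (H.v - (H.be k0 c s + H.al k1 c s * H.x)) -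
            D.p1.qs (H.v - (H.be k0 c s + H.al k1 c s * H.x))) := by
        simp only [map_sub, map_add, map_mul, ea, eb]
        linear_combination (-D.p1.qs (H.al k1 c s)) * hinv
      rw [e3]
      exact e2
    rw [dg_eq_of_sub_mem e1 h2 hr]
    exact dg_mul_le' _ _ hr hdi (dg_sub_le' _ _ hr hv1 hv2)
  have hb : dg (D.p1.qs (H.be k0 c s)) r ≤ D.p1.map H.M ⊔ X := by
    have e1 : D.p1.qs (H.be k0 c s) - (D.p1.qs H.v - D.p1.qs (H.al k1 c s) * D.p1.qs H.x) ∈ Id D.D (w * s - s) := by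
      have e2 := (Id D.D (w * s - s)).neg_mem f1
      have e3 : D.p1.qs (H.be k0 c s) - (D.p1.qs H.v - D.p1.qs (H.al k1 c s) * D.p1.qs H.x) =
          -D.p1.qs (H.v - (H.be k0 c s + H.al k1 c s * H.x)) := by
        simp only [map_sub, map_add, map_mul]
        ring
      rw [e3]
      exact e2
    rw [dg_eq_of_sub_mem e1 h2 hr]
    exact dg_sub_le' _ _ hr hv1 (dg_mul_le' _ _ hr ha hx1)
  -- independence
  have i1 : I (D.p1.map (H.κ s ⊔ H.B)) X (D.p1.map H.M) = 0 := by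
    have h3 := D.ind_xx hc hs
    rw [← hX] at h3
    have h4 : D.p1.map H.M ≤ D.p1.map (H.κ s ⊔ H.B) := D.p1.map_mono (H.M_le_B.trans le_sup_right)
    exact ind_symm (ind_of h3 bot_le (by order) le_sup_left le_sup_left)
  have g1 : ∀ f : QS S, dg f r ≤ H.κ s ⊔ H.M → dg (D.p1.qs f) r ≤ D.p1.map H.M ⊔ X → dg f r ≤ H.M := by
    intro f hf1 hf2
    have h5 : dg (D.p1.qs f) r ≤ D.p1.map H.M := by
      apply le_of_ind i1
      · rw [D.p1.qs_dg]
        refine le_trans (D.p1.map_mono (hf1.trans ?_)) le_sup_left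
        exact sup_le_sup_left H.M_le_B _
      · rw [sup_comm]; exact hf2
    rw [D.p1.qs_dg] at h5
    exact (map_le_iff D.p1).mp h5
  exact ⟨g1 _ (hc.al_le hs hr) ha, g1 _ (hc.be_le hs hr) hb⟩

end HC

end

end Pool.Agent.Helper82.TP
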