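import Pool.Agent.Helper82.TP.WG

/-! The first digits of the frames are functions of the first isotropic digits of the point of the Heisenberg group. -/

set_option autoImplicit false

namespace Pool.Agent.Helper82.TP

open Finset Filter Topology Pool.Agent.Helper69.RK Pool.Agent.Helper31.EC Pool.Agent.Helper38.NS

noncomputable section

open Sp QS

variable {S : Sp} {H : HD S} {w ρ σ r1 : ℝ} {Sc : Set ℝ} {z0 k0 k1 c : ℝ → QS S}

/-- the point of the Heisenberg group after a move along the line -/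
theorem LC.M2_le {s : ℝ} (D : LC H (Pj.id S) s) : D.p2.map H.M ≤
    D.p1.map H.M ⊔ (D.p1.map (dg H.x 1) ⊔ dg (D.p2.qs H.t - D.p1.qs ((Pj.id S).qs H.t)) 1) := by
  have hi : ∀ f : QS S, (Pj.id S).qs f = f := fun f => Pj.id_qs f
  have b1 := D.cx
  have b2 := D.ca
  have b3 := D.caR
  rw [hi] at b1 b2 b3 ⊢
  obtain ⟨δ, hδ⟩ : ∃ δ : QS D.D, δ = D.p2.qs H.t - D.p1.qs H.t := ⟨_, rfl⟩
  rw [← hδ]
  obtain ⟨A, hA⟩ : ∃ A : D.D.L, A = D.p1.map H.M ⊔ (D.p1.map (dg H.x 1) ⊔ dg δ 1) := ⟨_, rfl⟩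
  rw [← hA]
  have g1 : dg (D.p1.qs H.t) 1 ≤ A := by
    rw [D.p1.qs_dg, hA]; exact (D.p1.map_mono H.t_le_M).trans le_sup_left
  have g2 : dg (D.p1.qs H.y) 1 ≤ A := by
    rw [D.p1.qs_dg, hA]; exact (D.p1.map_mono H.y_le_M).trans le_sup_left
  have g3 : dg (D.p1.qs H.R) 1 ≤ A := by
    rw [D.p1.qs_dg, hA]; exact (D.p1.map_mono H.R_le_M).trans le_sup_left
  have g4 : dg (D.p1.qs H.x) 1 ≤ A := by
    rw [D.p1.qs_dg, hA]; exact le_sup_left.trans le_sup_right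
  have g5 : dg δ 1 ≤ A := by
    rw [hA]; exact le_sup_right.trans le_sup_right
  have g6 : dg (D.p1.qs H.a) 1 ≤ A := by
    unfold HD.a
    rw [map_sub, map_mul]
    exact dg_sub_le' _ _ le_rfl g2 (dg_mul_le' _ _ le_rfl g1 g4)
  have g7 : dg (D.p1.qs H.aR) 1 ≤ A := by
    unfold HD.aR
    rw [map_sub, map_mul]
    exact dg_sub_le' _ _ le_rfl g3 (dg_mul_le' _ _ le_rfl g1 g6)
  have e0 : D.p2.qs H.t = D.p1.qs H.t + δ := by rw [hδ]; ring
  have g8 : dg (D.p2.qs H.t) 1 ≤ A := by rw [e0]; exact dg_add_le' _ _ le_rfl g1 g5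
  have e1 : D.p2.qs H.y = D.p1.qs H.a + D.p2.qs H.t * D.p1.qs H.x := by
    rw [b2, b1]; unfold HD.a; rw [map_sub, map_mul]; ring
  have e2 : D.p2.qs H.R = D.p1.qs H.aR + D.p2.qs H.t * D.p1.qs H.a := by
    rw [b3, b2]; unfold HD.aR; rw [map_sub, map_mul]; ring
  unfold HD.M
  rw [Pj.map_sup, Pj.map_sup, ← Pj.qs_dg, ← Pj.qs_dg, ← Pj.qs_dg]
  refine sup_le (sup_le g8 ?_) ?_
  · rw [e1]
    exact dg_add_le' _ _ le_rfl g6 (dg_mul_le' _ _ le_rfl g8 g4)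
  · rw [e2]
    exact dg_add_le' _ _ le_rfl g7 (dg_mul_le' _ _ le_rfl g8 g6)

namespace HC

theorem c_M (hc : HC H w ρ σ r1 Sc z0 k0 k1 c) {s : ℝ} (hs : s ∈ Sc) (hwr : w * s ≤ r1) :
    dg (c s) (w * s - 2 * s) ≤ H.M := by
  obtain ⟨D⟩ := exists_LC hc hs (Pj.id S)
  have hi : ∀ f : QS S, (Pj.id S).qs f = f := fun f => Pj.id_qs f
  have hM2 := D.M2_le
  have hsm := D.small
  have hre := D.real
  have hp := hc.pos s hs
  have hs1 := hc.s_lt hs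
  have hws := hc.ws_le hs
  have l1 := D.lit _ (hc.lk1 s hs)
  have l3 := D.lit _ (hc.lc s hs)
  rw [hi] at hM2 hsm l1 l3
  simp only [hi] at hre
  obtain ⟨δ, hδ⟩ : ∃ δ : QS D.D, δ = D.p2.qs H.t - D.p1.qs H.t := ⟨_, rfl⟩
  rw [← hδ] at hM2 hsm hre
  obtain ⟨Y, hY⟩ : ∃ Y : D.D.L, Y = D.p1.map (dg H.x 1) ⊔ dg δ 1 := ⟨_, rfl⟩
  rw [← hY] at hM2
  have hal := (hc.al_M hs (show w * s - s ≤ r1 by linarith) le_rfl).1
  have e1 : δ * D.p1.qs (c s) = D.p1.qs (H.al k1 c s) - D.p2.qs (H.al k1 c s) := by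
    unfold HD.al
    rw [hδ]
    simp only [map_sub, map_mul, ← l1, ← l3]
    ring
  have e2 : w * s - 2 * s + s = w * s - s := by ring
  have h1 : dg (δ * D.p1.qs (c s)) (w * s - 2 * s + s) ≤ D.p1.map H.M ⊔ Y := by
    rw [e1, e2]
    refine dg_sub_le' _ _ (by linarith) ?_ ?_
    · rw [D.p1.qs_dg]
      exact (D.p1.map_mono hal).trans le_sup_left
    · rw [D.p2.qs_dg]
      exact (D.p2.map_mono hal).trans hM2
  have h2 : dg δ (w * s - 2 * s + s) ≤ D.p1.map H.M ⊔ Y := by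
    rw [e2, hY]
    exact (dg_mono δ (by linarith)).trans (le_sup_right.trans le_sup_right)
  have h3 : dg (D.p1.qs (c s)) (w * s - 2 * s) ≤ D.p1.map H.M ⊔ Y :=
    dg_div_small (A := D.p1.map ⊥) hs1 hp.le (by linarith) hsm (hre ⊥) h1 h2
  -- independence
  have i1 : I (D.p1.map (H.κ s)) (D.p1.map (dg H.x 1)) (D.p1.map H.M) = 0 := by
    rw [D.p1.I_map]
    exact ind_symm (ind_of (hc.ind_x hs) bot_le (by have := H.M_le_B; order) le_sup_left (by order))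
  have i2 : I (D.p1.map (H.κ s)) (dg δ 1) (D.p1.map H.M ⊔ D.p1.map (dg H.x 1)) = 0 := by
    apply ind_symm
    apply ind_of_h
    have a1 := hre (H.κ s ⊔ (H.M ⊔ dg H.x 1))
    rw [Pj.map_sup, Pj.map_sup] at a1
    have a2 : h (dg δ 1) (D.p1.map H.M ⊔ D.p1.map (dg H.x 1)) ≤ 1 - s :=
      (h_le_H _ _).trans (H_dg_of_mem hs1.le hsm)
    exact a2.trans a1
  have i3 : I (D.p1.map (H.κ s)) Y (D.p1.map H.M) = 0 := by
    rw [hY]
    exact ind_add i1 i2 (by rw [sup_comm])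
  have h4 : dg (D.p1.qs (c s)) (w * s - 2 * s) ≤ D.p1.map H.M := by
    apply le_of_ind i3
    · rw [D.p1.qs_dg]
      exact (D.p1.map_mono ((hc.lc s hs).dg_le (hc.bdd s hs) (by linarith))).trans le_sup_left
    · rw [sup_comm]; exact h3
  rw [D.p1.qs_dg] at h4
  exact (map_le_iff D.p1).mp h4

theorem c_iso (hc : HC H w ρ σ r1 Sc z0 k0 k1 c) {s : ℝ} (hs : s ∈ Sc) (hwr : w * s ≤ r1) :
    dg (c s) (w * s - 2 * s) ≤ H.iso (2 * s) := by
  have hp := hc.pos s hs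
  have hws := hc.ws_le hs
  apply le_of_ind (hc.isoM s hs)
  · exact ((hc.lc s hs).dg_le (hc.bdd s hs) (by linarith)).trans le_sup_left
  · exact (hc.c_M hs hwr).trans le_sup_left

/-- the slope at a rounded time, a literal function of the label -/
theorem X_iso (hc : HC H w ρ σ r1 Sc z0 k0 k1 c) {s : ℝ} (hs : s ∈ Sc) (hwr : w * s ≤ r1) {t0 : QS S}
    (h1 : Lit (H.K s) t0) (h2 : H.t - t0 ∈ Id S s) (h3 : dg t0 1 ≤ dg H.t s) :
    dg (k1 s - c s * t0) (w * s - s) ≤ H.iso (2 * s) := by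
  have hp := hc.pos s hs
  have hws := hc.ws_le hs
  have hw := hc.hw
  have hs1 := hc.s_lt hs
  have hr : w * s - s ≤ 1 := by linarith
  apply le_of_ind (hc.isoM s hs)
  · exact (((hc.lk1 s hs).sub ((hc.lc s hs).mul h1)).dg_le (hc.bdd s hs) hr).trans le_sup_left
  · have e1 : k1 s - c s * t0 = H.al k1 c s + c s * (H.t - t0) := by unfold HD.al; ring
    have ht0 : dg t0 1 ≤ H.M := h3.trans ((dg_mono H.t hs1.le).trans H.t_le_M)
    rw [e1]
    refine le_trans ?_ (le_sup_left : H.M ≤ H.M ⊔ H.iso (2 * s))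
    refine dg_add_le' _ _ hr (hc.al_M hs (by linarith) le_rfl).1 ?_
    have e2 : w * s - s = s + (w * s - 2 * s) := by ring
    rw [e2]
    refine (dg_mul_small (c s) (H.t - t0) (by linarith) (by linarith) hs1.le h2).trans (sup_le (hc.c_M hs hwr) ?_)
    refine dg_sub_le' _ _ (by linarith) ?_ ?_
    · exact (dg_mono H.t (by linarith)).trans H.t_le_M
    · exact (dg_mono t0 (by linarith)).trans ht0

/-- `c` at the larger scale -/
theorem c_iso' (hc : HC H w ρ σ r1 Sc z0 k0 k1 c) {η : ℝ} (hη : 0 < η) (hm : Mesh Sc σ η) {s s2 v : ℝ} (hs : s ∈ Sc)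
    (hs2 : s2 ∈ Sc) (h : s ≤ s2) (hwr : w * s ≤ r1) (hv : v ≤ w * s - 2 * s - 3 * η) :
    dg (c s2) v ≤ H.iso (2 * s) := by
  have hp := hc.pos s hs
  have hws := hc.ws_le hs
  rw [dg_eq_of_sub_mem (hc.c_sub hη hm hs hs2 h) hv (by linarith)]
  exact (dg_mono _ (by linarith)).trans (hc.c_iso hs hwr)

/-- the slope at the larger scale -/
theorem al_iso (hc : HC H w ρ σ r1 Sc z0 k0 k1 c) {s s2 v : ℝ} (hs : s ∈ Sc) (hs2 : s2 ∈ Sc) (h : 2 * s ≤ s2)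
    (hwr : w * s ≤ r1) (hv : v ≤ w * s - 2 * s) (hv2 : v ≤ s2) : dg (H.al k1 c s2) v ≤ H.iso s2 := by
  have hp := hc.pos s hs
  have hws := hc.ws_le hs
  have hs1 := hc.s_lt hs
  obtain ⟨t0, h1, h2, h3⟩ := hc.tc s hs
  have hv1 : v ≤ 1 := by linarith
  rw [dg_eq_of_sub_mem (hc.al_sub hs hs2 (by linarith)) (show v ≤ w * s - s by linarith) hv1]
  have e1 : H.al k1 c s = k1 s - c s * t0 - c s * (H.t - t0) := by unfold HD.al; ring
  rw [e1]
  have g1 : dg (k1 s - c s * t0) v ≤ H.iso s2 :=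
    (dg_mono _ (by linarith)).trans ((hc.X_iso hs hwr h1 h2 h3).trans (H.iso_mono h))
  have g2 : dg (c s) v ≤ H.iso s2 := (dg_mono _ hv).trans ((hc.c_iso hs hwr).trans (H.iso_mono h))
  refine dg_sub_le' _ _ hv1 g1 (dg_mul_le' _ _ hv1 g2 (dg_sub_le' _ _ hv1 ?_ ?_))
  · exact (dg_mono H.t hv2).trans (H.t_le_iso s2)
  · exact (dg_mono t0 hv1).trans (h3.trans ((dg_mono H.t (by linarith)).trans (H.t_le_iso s2)))

/-- the frame at the larger scale is known to the point -/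
theorem frame_B (hc : HC H w ρ σ r1 Sc z0 k0 k1 c) {η : ℝ} (hη : 0 < η) (hm : Mesh Sc σ η) {s s2 v : ℝ} (hs : s ∈ Sc)
    (hs2 : s2 ∈ Sc) (h : 2 * s ≤ s2) (hwr : w * s ≤ r1) (hv : v ≤ w * s - 2 * s - 3 * η) (hv2 : v ≤ s2)
    (hv3 : v ≤ r1) :
    dg (z0 s2) v ⊔ dg (k0 s2) v ⊔ dg (k1 s2) v ⊔ dg (c s2) v ≤ H.B := by
  have hp := hc.pos s hs
  have hp2 := hc.pos s2 hs2
  have hws := hc.ws_le hs
  have hws2 := hc.ws_le hs2
  have hw := hc.hw
  have hs1 := hc.s_lt hs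
  have hs21 := hc.two_s_lt hs2
  have hv1 : v ≤ 1 := by linarith
  have ht : dg H.t v ≤ H.B := (dg_mono H.t hv1).trans (H.t_le_M.trans H.M_le_B)
  have hy : dg H.y v ≤ H.B := (dg_mono H.y hv1).trans (H.y_le_M.trans H.M_le_B)
  have hR : dg H.R v ≤ H.B := (dg_mono H.R hv1).trans (H.R_le_M.trans H.M_le_B)
  have hz : dg H.z v ≤ H.B := (dg_mono H.z hv1).trans H.z_le_B
  have g1 : dg (c s2) v ≤ H.B :=
    (hc.c_iso' hη hm hs hs2 (by linarith) hwr hv).trans ((H.iso_le_M (by linarith)).trans H.M_le_B)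
  have g2 : dg (H.al k1 c s2) v ≤ H.B :=
    (hc.al_iso hs hs2 h hwr (by linarith) hv2).trans ((H.iso_le_M (by linarith)).trans H.M_le_B)
  have g3 : dg (H.be k0 c s2) v ≤ H.B :=
    (hc.al_M hs2 hv3 (by nlinarith)).2.trans H.M_le_B
  have g4 : dg (k1 s2) v ≤ H.B := by
    have e1 : k1 s2 = H.al k1 c s2 + c s2 * H.t := by unfold HD.al; ring
    rw [e1]
    exact dg_add_le' _ _ hv1 g2 (dg_mul_le' _ _ hv1 g1 ht)
  have g5 : dg (k0 s2) v ≤ H.B := by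
    have e1 : k0 s2 = H.be k0 c s2 - c s2 * H.y := by unfold HD.be; ring
    rw [e1]
    exact dg_sub_le' _ _ hv1 g3 (dg_mul_le' _ _ hv1 g1 hy)
  have g6 : dg (z0 s2) v ≤ H.B := by
    have e1 : z0 s2 - (H.z - k0 s2 * H.t - k1 s2 * H.y - c s2 * H.R) ∈ Id S (w * s2) := by
      have e2 := (Id S (w * s2)).neg_mem (hc.frZ s2 hs2)
      have e3 : z0 s2 - (H.z - k0 s2 * H.t - k1 s2 * H.y - c s2 * H.R) =
          -(H.z - (z0 s2 + k0 s2 * H.t + k1 s2 * H.y + c s2 * H.R)) := by ring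
      rw [e3]
      exact e2
    rw [dg_eq_of_sub_mem e1 (show v ≤ w * s2 by nlinarith) hv1]
    exact dg_sub_le' _ _ hv1 (dg_sub_le' _ _ hv1 (dg_sub_le' _ _ hv1 hz (dg_mul_le' _ _ hv1 g5 ht))
      (dg_mul_le' _ _ hv1 g4 hy)) (dg_mul_le' _ _ hv1 g1 hR)
  exact sup_le (sup_le (sup_le g6 g5) g4) g1

end HC

end

end Pool.Agent.Helper82.TP
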